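import Pool.Agent.N729.EX.Rep2

set_option autoImplicit false
set_option linter.unusedSectionVars false

/-!
# Expanders: the two conditions for the groups
-/

namespace Pool.Agent.N729.EX

open Module

variable {l : ℕ} {R : Type} [CommRing R] [Fact l.Prime] [Good l R]

theorem l_pow_le (hl : 1 ≤ l) : 4 * l ^ 6 ≤ 256 ^ l := by
  have h1 : l ≤ 2 ^ l := Nat.lt_two_pow_self.le
  calc 4 * l ^ 6 ≤ 4 ^ l * (2 ^ l) ^ 6 :=
        Nat.mul_le_mul (by simpa using Nat.pow_le_pow_right (show 0 < 4 by norm_num) hl)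
          (Nat.pow_le_pow_left h1 6)
    _ = 4 ^ l * 64 ^ l := by
        congr 1
        rw [← pow_mul, mul_comm, pow_mul]
        norm_num
    _ = 256 ^ l := by rw [← mul_pow, show 4 * 64 = 256 from rfl]

/-- condition (A) -/
theorem condA [Nontrivial R] [Finite R] (hR : Nat.card R ≤ 2 ^ l ^ 3) (L : Subgroup (GG l R)) :
    Nat.card (Abelianization L) ≤ 1024 ^ L.index := by
  set K : Subgroup (WH l R) := L.map Aff.hom with hK
  have hidx : K.index ≤ L.index := Nat.le_of_dvd (Nat.pos_of_ne_zero Subgroup.index_ne_zero_of_finite)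
    (Subgroup.index_map_dvd L Aff.hom_surj)
  obtain ⟨k, hk, hfix⟩ := exists_fix hR K
  obtain ⟨g, hg, rfl⟩ := hk
  rw [Aff.hom_app] at hfix
  by_cases htop : K = ⊤
  · have hL : ∀ h : WH l R, ∃ a ∈ L, a.h = h := by
      intro h
      have : h ∈ K := by rw [htop]; exact Subgroup.mem_top _
      obtain ⟨a, ha, rfl⟩ := this
      exact ⟨a, ha, rfl⟩
    calc Nat.card (Abelianization L) ≤ Nat.card {f : Fn l R // g.h • f = f} :=
          Aff.ab_le_perfect L WH_perfect hL hg
      _ ≤ 4 ^ K.index := hfix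
      _ ≤ 4 ^ L.index := Nat.pow_le_pow_right (by norm_num) hidx
      _ ≤ 1024 ^ L.index := Nat.pow_le_pow_left (by norm_num) _
  · have hge := WH_index htop
    have hl : 1 ≤ l := (Fact.out : l.Prime).one_lt.le
    calc Nat.card (Abelianization L) ≤ Nat.card {f : Fn l R // g.h • f = f} * Nat.card (WH l R) :=
          Aff.ab_le L hg
      _ ≤ 4 ^ K.index * 256 ^ l := Nat.mul_le_mul hfix (card_WH.trans (l_pow_le hl))
      _ ≤ 4 ^ L.index * 256 ^ L.index := Nat.mul_le_mul (Nat.pow_le_pow_right (by norm_num) hidx)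
          (Nat.pow_le_pow_right (by norm_num) (hge.trans hidx))
      _ = 1024 ^ L.index := by rw [← mul_pow, show 4 * 256 = 1024 from rfl]

/-- condition (R) -/
theorem condR [Nontrivial R] [Finite R] (hR : Nat.card R ≤ 2 ^ l ^ 3) {k : ℕ} (hk : 1 ≤ k)
    {ι : Type} [Fintype ι] {W : ι → Type}
    [∀ i, AddCommGroup (W i)] [∀ i, Module ℂ (W i)] [∀ i, FiniteDimensional ℂ (W i)]
    (ρ : ∀ i, Representation ℂ (GG l R) (W i)) (hirr : ∀ i, (ρ i).IsIrreducible)
    (hne : Pairwise fun i j => IsEmpty ((ρ i).Equiv (ρ j))) (hd : ∀ i, finrank ℂ (W i) ≤ k) :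
    Fintype.card ι ≤ (2 ^ 27) ^ k ^ 2 := by
  have hl1 : 1 ≤ l := (Fact.out : l.Prime).one_lt.le
  by_cases h1 : 16 ^ k < l
  · -- only the trivial representation
    have hlt : ∀ i, 16 ^ finrank ℂ (W i) < l := fun i =>
      (Nat.pow_le_pow_right (by norm_num) (hd i)).trans_lt h1
    have h2 := count ρ (Y := Unit) (fun _ => ()) (fun _ => ⟨1, rfl⟩) hirr hne (fun i g g' _ => by
      have hc : ∀ g, (ρ i).character g = (ρ i).character 1 := by
        intro g
        have e1 : (ρ i).character g = LinearMap.trace ℂ (W i) (ρ i g) := rfl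
        have e2 : (ρ i).character 1 = LinearMap.trace ℂ (W i) (ρ i 1) := rfl
        rw [e1, e2, all_trivial (ρ i) (hlt i) g, all_trivial (ρ i) (hlt i) 1]
      rw [hc g, hc g'])
    have hu : Nat.card Unit = 1 := Nat.card_unique
    rw [hu] at h2
    exact h2.trans (Nat.one_le_pow _ _ (by norm_num))
  · push Not at h1
    by_cases h2 : k < l ^ 2
    · have h3 := count ρ (Y := WH l R) (fun g => g.h) Aff.hom_surj hirr hne (fun i g g' hgg => by
        have hc : ∀ g : GG l R, ρ i g = ρ i (Aff.inl g.h) := by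
          intro g
          conv_lhs => rw [Aff.eq_mul g]
          rw [map_mul, tn_trivial (ρ i) ((hd i).trans_lt h2), one_mul]
        have e1 : (ρ i).character g = LinearMap.trace ℂ (W i) (ρ i g) := rfl
        have e2 : (ρ i).character g' = LinearMap.trace ℂ (W i) (ρ i g') := rfl
        have hgg' : g.h = g'.h := hgg
        rw [e1, e2, hc g, hc g', hgg'])
      calc Fintype.card ι ≤ Nat.card (WH l R) := h3
        _ ≤ 4 * l ^ 6 := card_WH
        _ ≤ 4 * (16 ^ k) ^ 6 := Nat.mul_le_mul_left _ (Nat.pow_le_pow_left h1 6)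
        _ = 2 ^ (2 + 24 * k) := by
          rw [pow_add, pow_mul, ← pow_mul, mul_comm k 6, pow_mul]
          norm_num
        _ ≤ 2 ^ (27 * k ^ 2) := Nat.pow_le_pow_right (by norm_num) (by nlinarith)
        _ = (2 ^ 27) ^ k ^ 2 := by rw [pow_mul]
    · push Not at h2
      have h3 := count ρ (Y := GG l R) id Function.surjective_id hirr hne (fun i g g' hgg => by
        rw [show g = g' from hgg])
      have h4 : Nat.card (Fn l R) = Nat.card R ^ l := by
        rw [Nat.card_fun, Nat.card_zmod]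
      have h5 : l ^ 4 ≤ k ^ 2 := by
        calc l ^ 4 = (l ^ 2) ^ 2 := by ring
          _ ≤ k ^ 2 := Nat.pow_le_pow_left h2 2
      have h6 : l ≤ k ^ 2 := (Nat.le_self_pow (by norm_num) l).trans h5
      calc Fintype.card ι ≤ Nat.card (GG l R) := h3
        _ = Nat.card R ^ l * Nat.card (WH l R) := by rw [Aff.card, h4]
        _ ≤ (2 ^ l ^ 3) ^ l * 256 ^ l := Nat.mul_le_mul (Nat.pow_le_pow_left hR l)
            (card_WH.trans (l_pow_le hl1))
        _ = 2 ^ l ^ 4 * 256 ^ l := by rw [← pow_mul]; congr 1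
        _ ≤ 2 ^ k ^ 2 * 256 ^ k ^ 2 := Nat.mul_le_mul (Nat.pow_le_pow_right (by norm_num) h5)
            (Nat.pow_le_pow_right (by norm_num) h6)
        _ = 512 ^ k ^ 2 := by rw [← mul_pow, show 2 * 256 = 512 from rfl]
        _ ≤ (2 ^ 27) ^ k ^ 2 := Nat.pow_le_pow_left (by norm_num) _

end Pool.Agent.N729.EX
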