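import Mathlib

set_option autoImplicit false

/-!
# Expanders: abstract group theory
-/

namespace Pool.Agent.N729.EX

open Subgroup
open scoped commutatorElement

theorem pow_coprime {G : Type*} [Group G] {K : Subgroup G} {s : G} {l n : ℕ} (hl1 : 1 < l)
    (hl : s ^ l = 1) (hn : Nat.Coprime n l) (h : s ^ n ∈ K) : s ∈ K := by
  obtain ⟨m, -, hm⟩ := Nat.exists_mul_mod_eq_one_of_coprime hn hl1
  have h1 : s ^ (n * m) = s := by
    rw [← Nat.div_add_mod (n * m) l, hm, pow_add, pow_mul, hl, one_pow, one_mul, pow_one]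
  rw [← h1, pow_mul]
  exact K.pow_mem h m

/-- proper subgroups have large index -/
theorem index_ge {G : Type*} [Group G] [Finite G] {S : Set G} (hS : closure S = ⊤) {l : ℕ}
    (hlp : l.Prime) (hl : ∀ s ∈ S, s ^ l = 1) {K : Subgroup G} (hK : K ≠ ⊤) : l ≤ K.index := by
  obtain ⟨s, hsS, hsK⟩ : ∃ s ∈ S, s ∉ K := by
    by_contra h
    push Not at h
    apply hK
    rw [eq_top_iff, ← hS, closure_le]
    exact h
  have hinj : Function.Injective (fun i : Fin l => ((s ^ (i : ℕ) : G) : G ⧸ K)) := by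
    have key : ∀ i j : Fin l, (i : ℕ) < j → ((s ^ (i : ℕ) : G) : G ⧸ K) ≠ ((s ^ (j : ℕ) : G) : G ⧸ K) := by
      intro i j hij h
      rw [QuotientGroup.eq] at h
      have h2 : (s ^ (i : ℕ))⁻¹ * s ^ (j : ℕ) = s ^ ((j : ℕ) - i) := by
        rw [inv_mul_eq_iff_eq_mul, ← pow_add]
        congr 1
        omega
      rw [h2] at h
      refine hsK (pow_coprime hlp.one_lt (hl s hsS) ?_ h)
      refine (Nat.coprime_comm.1 ((Nat.Prime.coprime_iff_not_dvd hlp).2 fun hd => ?_))
      have := Nat.le_of_dvd (by omega) hd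
      have := j.isLt
      omega
    intro i j h
    rcases lt_trichotomy (i : ℕ) j with h1 | h1 | h1
    · exact absurd h (key i j h1)
    · exact Fin.ext h1
    · exact absurd h.symm (key j i h1)
  have h3 := Nat.card_le_card_of_injective _ hinj
  rw [Nat.card_fin] at h3
  exact h3

/-- perfectness -/
theorem perfect {G : Type*} [Group G] {S : Set G} (hS : closure S = ⊤) {l : ℕ}
    (hl1 : 1 < l) (hl : ∀ s ∈ S, s ^ l = 1) (hc : Nat.Coprime 15 l)
    (h : ∀ s ∈ S, ∃ t : G, t * s * t⁻¹ = s ^ 16) : commutator G = ⊤ := by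
  rw [eq_top_iff, ← hS, closure_le]
  intro s hs
  obtain ⟨t, ht⟩ := h s hs
  refine pow_coprime hl1 (hl s hs) hc ?_
  have e : s ^ 15 = ⁅t, s⁆ := by
    rw [commutatorElement_def, ht, pow_succ s 15, mul_inv_cancel_right]
  rw [e]
  exact commutator_mem_commutator (mem_top _) (mem_top _)

/-- the index of a subgroup in terms of a normal subgroup -/
theorem index_mul_le {G : Type*} [Group G] [Finite G] (K E : Subgroup G) :
    K.relIndex E * (K ⊔ E).index ≤ K.index := by
  rw [← relIndex_mul_index (le_sup_left : K ≤ K ⊔ E)]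
  refine Nat.mul_le_mul_right _ ?_
  refine relIndex_le_of_le_right le_sup_right ?_
  exact index_ne_zero_of_finite

theorem card_relIndex {G : Type*} [Group G] [Finite G] (K E : Subgroup G) :
    Nat.card (K ⊓ E : Subgroup G) * K.relIndex E = Nat.card E := by
  have h := relIndex_mul_relIndex (H := (⊥ : Subgroup G)) (K := K ⊓ E) (L := E) bot_le inf_le_right
  rwa [relIndex_bot_left, relIndex_bot_left, inf_relIndex_right] at h

end Pool.Agent.N729.EX
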