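import Pool.Agent.N729.EX.Abs

set_option autoImplicit false
set_option linter.unusedSectionVars false

/-!
# Expanders: semidirect products with an abelian group, abelianizations of subgroups
-/

namespace Pool.Agent.N729.EX

open Subgroup
open scoped commutatorElement

/-- the semidirect product -/
@[ext] structure Aff (V H : Type) where
  v : V
  h : H

namespace Aff

variable {V H : Type} [AddCommGroup V] [Group H] [DistribMulAction H V]

instance : Mul (Aff V H) := ⟨fun a b => ⟨a.v + a.h • b.v, a.h * b.h⟩⟩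
instance : One (Aff V H) := ⟨⟨0, 1⟩⟩
instance : Inv (Aff V H) := ⟨fun a => ⟨-(a.h⁻¹ • a.v), a.h⁻¹⟩⟩

@[simp] theorem mul_v (a b : Aff V H) : (a * b).v = a.v + a.h • b.v := rfl
@[simp] theorem mul_h (a b : Aff V H) : (a * b).h = a.h * b.h := rfl
@[simp] theorem one_v : (1 : Aff V H).v = 0 := rfl
@[simp] theorem one_h : (1 : Aff V H).h = 1 := rfl
@[simp] theorem inv_v (a : Aff V H) : (a⁻¹).v = -(a.h⁻¹ • a.v) := rfl
@[simp] theorem inv_h (a : Aff V H) : (a⁻¹).h = a.h⁻¹ := rfl

instance : Group (Aff V H) where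
  mul_assoc a b c := by
    ext
    · simp [smul_add, mul_smul, add_assoc]
    · simp [mul_assoc]
  one_mul a := by ext <;> simp
  mul_one a := by ext <;> simp
  inv_mul_cancel a := by ext <;> simp

/-- as a product of sets -/
def equiv : Aff V H ≃ V × H where
  toFun a := (a.v, a.h)
  invFun p := ⟨p.1, p.2⟩

instance [Finite V] [Finite H] : Finite (Aff V H) := Finite.of_equiv _ (equiv (V := V) (H := H)).symm

theorem card : Nat.card (Aff V H) = Nat.card V * Nat.card H := by
  rw [Nat.card_congr (equiv (V := V) (H := H)), Nat.card_prod]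

/-- the projection -/
def hom : Aff V H →* H where
  toFun a := a.h
  map_one' := rfl
  map_mul' _ _ := rfl

@[simp] theorem hom_app (a : Aff V H) : hom a = a.h := rfl

theorem hom_surj : Function.Surjective (hom : Aff V H →* H) := fun h => ⟨⟨0, h⟩, rfl⟩

/-- translations in a subgroup -/
def tr (L : Subgroup (Aff V H)) : AddSubgroup V where
  carrier := {v | (⟨v, 1⟩ : Aff V H) ∈ L}
  add_mem' := by
    intro a b ha hb
    have h := L.mul_mem ha hb
    have e : (⟨a, 1⟩ : Aff V H) * ⟨b, 1⟩ = ⟨a + b, 1⟩ := by ext <;> simp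
    rwa [e] at h
  zero_mem' := L.one_mem
  neg_mem' := by
    intro a ha
    have h := L.inv_mem ha
    have e : (⟨a, 1⟩ : Aff V H)⁻¹ = ⟨-a, 1⟩ := by ext <;> simp
    rwa [e] at h

theorem mem_tr {L : Subgroup (Aff V H)} {v : V} : v ∈ tr L ↔ (⟨v, 1⟩ : Aff V H) ∈ L := Iff.rfl

theorem conj_tr (g : Aff V H) (v : V) : g * ⟨v, 1⟩ * g⁻¹ = ⟨g.h • v, 1⟩ := by
  ext <;> simp

theorem smul_mem_tr {L : Subgroup (Aff V H)} {g : Aff V H} (hg : g ∈ L) {v : V} (hv : v ∈ tr L) :
    g.h • v ∈ tr L := by
  rw [mem_tr, ← conj_tr]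
  exact L.mul_mem (L.mul_mem hg hv) (L.inv_mem hg)

/-- the difference operator on the translations -/
def del (L : Subgroup (Aff V H)) (g : L) : tr L →+ tr L where
  toFun v := ⟨(g : Aff V H).h • (v : V) - v, (tr L).sub_mem (smul_mem_tr g.2 v.2) v.2⟩
  map_zero' := by ext; simp
  map_add' a b := by ext; simp; abel

/-- translations in the abelianization -/
def psi (L : Subgroup (Aff V H)) : tr L →+ Additive (Abelianization L) where
  toFun v := Additive.ofMul (Abelianization.of ⟨⟨v, 1⟩, v.2⟩)
  map_zero' := by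
    have : (⟨⟨((0 : tr L) : V), 1⟩, (0 : tr L).2⟩ : L) = 1 := rfl
    rw [this, map_one]; rfl
  map_add' a b := by
    rw [← ofMul_mul, ← map_mul]
    congr 2
    ext <;> simp

theorem psi_del (L : Subgroup (Aff V H)) (g : L) (v : tr L) : psi L (del L g v) = 0 := by
  have e : (del L g v) = ⟨(g : Aff V H).h • (v : V), smul_mem_tr g.2 v.2⟩ - v := rfl
  rw [e, map_sub, sub_eq_zero]
  change Additive.ofMul (Abelianization.of _) = Additive.ofMul (Abelianization.of _)
  congr 1
  have e2 : (⟨⟨(g : Aff V H).h • (v : V), 1⟩, smul_mem_tr g.2 v.2⟩ : L) =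
      g * ⟨⟨v, 1⟩, v.2⟩ * g⁻¹ := by
    apply Subtype.ext
    exact (conj_tr (g : Aff V H) (v : V)).symm
  rw [e2, map_mul, map_mul, map_inv, mul_comm, inv_mul_cancel_left]

theorem card_range_le {N B : Type*} [AddCommGroup N] [AddCommGroup B] [Finite N] (ψ : N →+ B)
    (δ : N →+ N) (h : ∀ v, ψ (δ v) = 0) : Nat.card ψ.range ≤ Nat.card δ.ker := by
  have h1 := AddSubgroup.card_mul_index ψ.ker
  have h2 := AddSubgroup.card_mul_index δ.ker
  rw [AddSubgroup.index_ker] at h1 h2
  have h3 : Nat.card δ.range ≤ Nat.card ψ.ker := by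
    refine AddSubgroup.card_le_of_le ?_
    rintro _ ⟨v, rfl⟩
    exact h v
  have h4 : 0 < Nat.card δ.range := Nat.card_pos
  have h5 : Nat.card ψ.range * Nat.card δ.range ≤ Nat.card δ.ker * Nat.card δ.range := by
    rw [h2, ← h1, mul_comm (Nat.card ψ.range)]
    exact Nat.mul_le_mul_right _ h3
  exact Nat.le_of_mul_le_mul_right h5 h4

theorem card_psi_le [Finite V] (L : Subgroup (Aff V H)) {g : Aff V H} (hg : g ∈ L) :
    Nat.card (psi L).range ≤ Nat.card {v : V // g.h • v = v} := by
  refine (card_range_le (psi L) (del L ⟨g, hg⟩) (psi_del L ⟨g, hg⟩)).trans ?_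
  refine Nat.card_le_card_of_injective
    (fun v => (⟨((v : tr L) : V), ?_⟩ : {v : V // g.h • v = v})) ?_
  · have := v.2
    rw [AddMonoidHom.mem_ker] at this
    have h2 := congrArg (fun x : tr L => (x : V)) this
    exact sub_eq_zero.1 h2
  · intro a b hab
    simp only [Subtype.mk.injEq] at hab
    exact Subtype.ext (Subtype.ext hab)

/-- two elements with the same linear part -/
theorem of_eq (L : Subgroup (Aff V H)) (a b : L) (h : (a : Aff V H).h = (b : Aff V H).h) :
    ∃ i ∈ (psi L).range, Abelianization.of a = Additive.toMul i * Abelianization.of b := by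
  have hm : ((a : Aff V H) * (b : Aff V H)⁻¹).v ∈ tr L := by
    rw [mem_tr]
    have e : (⟨((a : Aff V H) * (b : Aff V H)⁻¹).v, 1⟩ : Aff V H) = a * (b : Aff V H)⁻¹ := by
      ext
      · rfl
      · simp [h]
    rw [e]
    exact L.mul_mem a.2 (L.inv_mem b.2)
  refine ⟨psi L ⟨_, hm⟩, ⟨_, rfl⟩, ?_⟩
  change Abelianization.of a = Abelianization.of _ * Abelianization.of b
  rw [← map_mul]
  congr 1
  apply Subtype.ext
  ext
  · change (a : Aff V H).v = ((a : Aff V H) * (b : Aff V H)⁻¹).v + (1 : H) • (b : Aff V H).v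
    simp [h]
  · change (a : Aff V H).h = 1 * (b : Aff V H).h
    rw [one_mul, h]

theorem ab_le [Finite V] [Finite H] (L : Subgroup (Aff V H)) {g : Aff V H} (hg : g ∈ L) :
    Nat.card (Abelianization L) ≤ Nat.card {v : V // g.h • v = v} * Nat.card H := by
  classical
  have h1 := card_psi_le L hg
  have : Finite (psi L).range := inferInstance
  let s : H → L := fun h => if hh : ∃ a : L, (a : Aff V H).h = h then hh.choose else 1
  have hs : Function.Surjective
      (fun p : (psi L).range × H => Additive.toMul (p.1 : Additive (Abelianization L)) *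
        Abelianization.of (s p.2)) := by
    intro x
    obtain ⟨a, rfl⟩ := QuotientGroup.mk_surjective x
    have ha : ∃ b : L, (b : Aff V H).h = (a : Aff V H).h := ⟨a, rfl⟩
    have hb : ((s (a : Aff V H).h : L) : Aff V H).h = (a : Aff V H).h := by
      have : s (a : Aff V H).h = ha.choose := dif_pos ha
      rw [this]
      exact ha.choose_spec
    obtain ⟨i, hi, e⟩ := of_eq L a (s (a : Aff V H).h) hb.symm
    exact ⟨(⟨i, hi⟩, (a : Aff V H).h), e.symm⟩
  have h2 := Nat.card_le_card_of_surjective _ hs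
  rw [Nat.card_prod] at h2
  exact h2.trans (Nat.mul_le_mul_right _ h1)

theorem ab_le_perfect [Finite V] [Finite H] (L : Subgroup (Aff V H)) (hp : commutator H = ⊤)
    (hL : ∀ h : H, ∃ a ∈ L, a.h = h) {g : Aff V H} (hg : g ∈ L) :
    Nat.card (Abelianization L) ≤ Nat.card {v : V // g.h • v = v} := by
  refine le_trans ?_ (card_psi_le L hg)
  have key : ∀ h : H, ∀ a : L, (a : Aff V H).h = h →
      Additive.ofMul (Abelianization.of a) ∈ (psi L).range := by
    intro h
    have hh : h ∈ commutator H := by rw [hp]; exact mem_top _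
    rw [commutator_eq_closure] at hh
    induction hh using closure_induction with
    | mem x hx =>
      obtain ⟨y, z, rfl⟩ := hx
      intro a ha
      obtain ⟨b, hb, rfl⟩ := hL y
      obtain ⟨c, hc, rfl⟩ := hL z
      obtain ⟨i, hi, e⟩ := of_eq L a ⁅(⟨b, hb⟩ : L), (⟨c, hc⟩ : L)⁆ (by rw [ha]; rfl)
      have e2 : Abelianization.of ⁅(⟨b, hb⟩ : L), (⟨c, hc⟩ : L)⁆ = 1 := by
        rw [map_commutatorElement, commutatorElement_eq_one_iff_mul_comm, mul_comm]
      rw [e, e2, mul_one]
      exact hi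
    | one =>
      intro a ha
      obtain ⟨i, hi, e⟩ := of_eq L a 1 (by rw [ha]; rfl)
      rw [e, map_one, mul_one]
      exact hi
    | mul x y _ _ hx hy =>
      intro a ha
      obtain ⟨b, hb, rfl⟩ := hL x
      have h1 := hx ⟨b, hb⟩ rfl
      have h2 := hy ((⟨b, hb⟩ : L)⁻¹ * a) (by
        change (b⁻¹ * (a : Aff V H)).h = y
        rw [mul_h, ha, inv_h, inv_mul_cancel_left])
      have h3 := (psi L).range.add_mem h1 h2
      rw [← ofMul_mul, ← map_mul, mul_inv_cancel_left] at h3
      exact h3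
    | inv x _ hx =>
      intro a ha
      have h1 := hx a⁻¹ (by
        change ((a : Aff V H)⁻¹).h = x
        rw [inv_h, ha, inv_inv])
      have h3 := (psi L).range.neg_mem h1
      rw [map_inv, ofMul_inv, neg_neg] at h3
      exact h3
  have : Finite (psi L).range := inferInstance
  refine Nat.card_le_card_of_injective
    (fun x : Abelianization L => (⟨Additive.ofMul x, ?_⟩ : (psi L).range)) ?_
  · obtain ⟨a, rfl⟩ := QuotientGroup.mk_surjective x
    exact key _ a rfl
  · intro x y hxy
    simp only [Subtype.mk.injEq] at hxy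
    exact Additive.ofMul.injective hxy

end Aff

end Pool.Agent.N729.EX
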