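import Pool.Agent.N729.EX.Inst

set_option autoImplicit false
set_option linter.unusedSectionVars false

/-!
# Expanders: the sequence of groups
-/

namespace Pool.Agent.N729.EX

open Finset Module

/-- the primes -/
noncomputable def pl (n : ℕ) : ℕ := (Nat.exists_infinite_primes (n + 7)).choose

theorem pl_ge (n : ℕ) : n + 7 ≤ pl n := (Nat.exists_infinite_primes (n + 7)).choose_spec.1

theorem pl_prime (n : ℕ) : (pl n).Prime := (Nat.exists_infinite_primes (n + 7)).choose_spec.2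

instance (n : ℕ) : Fact (pl n).Prime := ⟨pl_prime n⟩

theorem pl_seven (n : ℕ) : 7 ≤ pl n := by
  have := pl_ge n
  omega

noncomputable instance (n : ℕ) : Good (pl n) (ZMod (mm (pl n))) := good (pl_seven n)

instance (n : ℕ) : Fact (1 < mm (pl n)) := ⟨one_lt_mm (pl_seven n)⟩

instance (n : ℕ) : NeZero (mm (pl n)) := ⟨by
  have := one_lt_mm (pl_seven n)
  omega⟩

/-- the groups -/
abbrev FG (n : ℕ) : Type := GG (pl n) (ZMod (mm (pl n)))

theorem card_ring (n : ℕ) : Nat.card (ZMod (mm (pl n))) ≤ 2 ^ (pl n) ^ 3 := by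
  rw [Nat.card_zmod]
  exact mm_le (by have := pl_seven n; omega)

theorem card_FG (n : ℕ) : n ≤ Nat.card (FG n) := by
  have h1 : Nat.card (Fn (pl n) (ZMod (mm (pl n)))) = mm (pl n) ^ (pl n) := by
    rw [Nat.card_fun, Nat.card_zmod, Nat.card_zmod]
  rw [Aff.card, h1]
  have h2 : 0 < Nat.card (WH (pl n) (ZMod (mm (pl n)))) := Nat.card_pos
  have h3 : pl n < mm (pl n) ^ (pl n) := Nat.lt_pow_self (one_lt_mm (pl_seven n))
  have h4 := pl_ge n
  calc n ≤ mm (pl n) ^ (pl n) := by omega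
    _ = mm (pl n) ^ (pl n) * 1 := (mul_one _).symm
    _ ≤ _ := Nat.mul_le_mul_left _ h2

theorem FG_two (n : ℕ) : ∃ x y : FG n, Subgroup.closure {x, y} = ⊤ :=
  ⟨_, _, two_gen fun r => ⟨r.val, ZMod.natCast_zmod_val r⟩⟩

theorem FG_A (n : ℕ) (L : Subgroup (FG n)) : Nat.card (Abelianization L) ≤ 1024 ^ L.index :=
  condA (card_ring n) L

theorem FG_R (n : ℕ) {k : ℕ} (hk : 1 ≤ k)
    {ι : Type} [Fintype ι] {W : ι → Type}
    [∀ i, AddCommGroup (W i)] [∀ i, Module ℂ (W i)] [∀ i, FiniteDimensional ℂ (W i)]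
    (ρ : ∀ i, Representation ℂ (FG n) (W i)) (hirr : ∀ i, (ρ i).IsIrreducible)
    (hne : Pairwise fun i j => IsEmpty ((ρ i).Equiv (ρ j))) (hd : ∀ i, finrank ℂ (W i) ≤ k) :
    Fintype.card ι ≤ (2 ^ 27) ^ k ^ 2 :=
  condR (card_ring n) hk ρ hirr hne hd

theorem FG_bottleneck (q B : ℕ) (hq : 0 < q) : ∃ n : ℕ, ∀ S : Finset (FG n), S.card ≤ B →
    ∃ X : Set (FG n), X.Nonempty ∧ 2 * X.ncard ≤ Nat.card (FG n) ∧
      q * (bd (S : Set (FG n)) X).ncard ≤ 4 * X.ncard := by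
  obtain ⟨N, hN⟩ := poly_lt q B
  refine ⟨N, fun S hS => bottleneck S hq ?_⟩
  have h1 := hN (pl N) (by have := pl_ge N; omega)
  have h2 : 0 < pl N := (pl_prime N).pos
  refine lt_of_le_of_lt (Nat.pow_le_pow_right (by positivity) (Nat.mul_le_mul_left _ hS)) ?_
  exact h1.trans_le (le_mm h2)

end Pool.Agent.N729.EX
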