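import Pool.Agent.N729.EX.A

set_option autoImplicit false
set_option linter.unusedSectionVars false

/-!
# Expanders: two generators
-/

namespace Pool.Agent.N729.EX

open Finset

variable {l : ℕ} {R : Type} [CommRing R] [Fact l.Prime] [Good l R]

/-! ### The Weyl element -/

/-- the Weyl element: a multiple of the Fourier transform -/
def We (l : ℕ) (R : Type) [CommRing R] [Fact l.Prime] [Good l R] : Fn l R ≃ₗ[R] Fn l R := Wa (1 / 2)

theorem half_ne (l : ℕ) (R : Type) [CommRing R] [Fact l.Prime] [Good l R] : (1 / 2 : ZMod l) ≠ 0 :=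
  one_div_ne_zero (two_ne l R)

theorem We_app (f : Fn l R) : We l R f = (li l R * gs l R (1 / 2)) • Fo f := by
  have h2 := two_ne l R
  funext x
  rw [We, Wa_app (half_ne l R), Pi.smul_apply, smul_eq_mul, Fo_app]
  congr 1
  refine sum_congr rfl fun y _ => ?_
  rw [mul_one_div_cancel h2, one_mul]

theorem We_hE (t i j : ZMod l) : (We l R * hE t i j : Fn l R ≃ₗ[R] Fn l R) =
    hE (t - i * j) j (-i) * We l R := by
  refine LinearEquiv.ext fun f => ?_
  have h := LinearEquiv.congr_fun (Fo_hE (R := R) t i j) f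
  rw [mul_app, mul_app] at h
  rw [mul_app, mul_app, We_app, We_app, map_smul, h]

theorem We_Qp : (We l R * Qp 1 : Fn l R ≃ₗ[R] Fn l R) = Qu 1 * We l R := by
  refine LinearEquiv.ext fun f => ?_
  rw [mul_app, mul_app, We_app, We_app, map_smul, Qp, mul_app, mul_app]
  congr 1
  exact LinearEquiv.apply_symm_apply _ _

theorem Fo_Fo (f : Fn l R) (x : ZMod l) : (Fo (Fo f) : Fn l R) x = l * f (-x) := by
  rw [Fo_app]
  simp_rw [Fo_app, mul_sum]
  rw [sum_comm]
  have h : ∀ y : ZMod l, ∑ z : ZMod l, (e (x * z) * (e (z * y) * f y) : R) =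
      if y = -x then (l : R) * f (-x) else 0 := by
    intro y
    have h1 : ∀ z : ZMod l, (e (x * z) * (e (z * y) * f y) : R) = f y * e ((x + y) * z) := by
      intro z
      rw [show (x + y) * z = x * z + z * y by ring, e_add]
      ring
    simp_rw [h1]
    rw [← mul_sum, e_sum_mul]
    by_cases hy : y = -x
    · subst hy
      rw [if_pos (add_neg_cancel x), if_pos rfl, mul_comm]
    · rw [if_neg (fun h => hy (by linear_combination h)), if_neg hy, mul_zero]
  rw [sum_congr rfl fun y _ => h y]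
  simp

theorem We_sq (f : Fn l R) (x : ZMod l) : (We l R * We l R : Fn l R ≃ₗ[R] Fn l R) f x =
    (li l R * gs l R (1 / 2)) ^ 2 * l * f (-x) := by
  rw [mul_app, We_app, We_app, map_smul, smul_smul, Pi.smul_apply, Fo_Fo, smul_eq_mul]
  ring

theorem We_const : ((li l R * gs l R (1 / 2)) ^ 2 * l : R) ^ 2 = 1 := by
  have h7 := li_mul (l := l) (R := R)
  have h8 : gs l R (1 / 2) ^ 2 = (l : R) ∨ gs l R (1 / 2) ^ 2 = -(l : R) := by
    have h1 : gs l R (1 / 2) * gs l R (1 / 2) = gs l R 1 * gs l R (1 / 2) ∨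
        gs l R (1 / 2) * gs l R (1 / 2) = -(gs l R 1 * gs l R (1 / 2)) := by
      rcases gs_pm (R := R) (half_ne l R) (one_ne_zero : (1 : ZMod l) ≠ 0) with h | h
      · left; nth_rewrite 1 [h]; rfl
      · right; nth_rewrite 1 [h]; ring
    rw [sq]
    rcases h1 with h1 | h1 <;> rcases gs_mul (R := R) (half_ne l R) with h2 | h2 <;>
      rw [h1, h2] <;> simp
  have h9 : (gs l R (1 / 2) ^ 2) ^ 2 = (l : R) ^ 2 := by
    rcases h8 with h | h <;> rw [h]
    ring
  calc ((li l R * gs l R (1 / 2)) ^ 2 * l : R) ^ 2 =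
      li l R ^ 4 * l ^ 2 * (gs l R (1 / 2) ^ 2) ^ 2 := by ring
    _ = (li l R * l) ^ 4 := by rw [h9]; ring
    _ = 1 := by rw [h7, one_pow]

theorem We_four : (We l R) ^ 4 = 1 := by
  have h1 : (We l R) ^ 4 = (We l R * We l R) * (We l R * We l R) := by
    rw [show 4 = 2 + 2 from rfl, pow_add, sq]
  rw [h1]
  refine op_ext fun f x => ?_
  rw [mul_app, We_sq, We_sq, neg_neg, ← mul_assoc, ← sq, We_const, one_mul]
  rfl

theorem We_Qu : (We l R * We l R * Qu 1 : Fn l R ≃ₗ[R] Fn l R) = Qu 1 * (We l R * We l R) := by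
  refine op_ext fun f x => ?_
  rw [mul_app (We l R * We l R) (Qu 1), mul_app (Qu 1), We_sq, Qu, Dg_app, Dg_app, We_sq]
  rw [show 1 * (-x) ^ 2 = 1 * x ^ 2 by ring]
  ring

/-- the Weyl element in the group -/
def weH (l : ℕ) (R : Type) [CommRing R] [Fact l.Prime] [Good l R] : WH l R := ⟨We l R, Wa_mem _⟩

theorem weH_eH (t i j : ZMod l) : (weH l R * eH t i j : WH l R) =
    eH (t - i * j) j (-i) * weH l R := Subtype.ext (We_hE _ _ _)

theorem weH_qp : (weH l R * qpH 1 : WH l R) = quH 1 * weH l R := Subtype.ext We_Qp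

theorem weH_four : weH l R ^ 4 = 1 := Subtype.ext We_four

theorem weH_qu : (weH l R * weH l R * quH 1 : WH l R) = quH 1 * (weH l R * weH l R) :=
  Subtype.ext We_Qu

theorem eH_center (t : ZMod l) (g : WH l R) : eH t 0 0 * g = g * eH t 0 0 := by
  apply Subtype.ext
  refine LinearEquiv.ext fun f => ?_
  change (hE t 0 0 : Fn l R ≃ₗ[R] Fn l R) ((g : Fn l R ≃ₗ[R] Fn l R) f) =
    (g : Fn l R ≃ₗ[R] Fn l R) ((hE t 0 0 : Fn l R ≃ₗ[R] Fn l R) f)
  have h1 : ∀ f : Fn l R, (hE t 0 0 : Fn l R ≃ₗ[R] Fn l R) f = (e t : R) • f := by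
    intro f
    funext x
    rw [hE_app, zero_mul, add_zero, add_zero, Pi.smul_apply, smul_eq_mul]
  rw [h1, h1, map_smul]

theorem eH_smul (t : ZMod l) (f : Fn l R) : (eH t 0 0 : WH l R) • f = (e t : R) • f := by
  funext x
  rw [smul_app]
  change (hE t 0 0 : Fn l R ≃ₗ[R] Fn l R) f x = _
  rw [hE_app, zero_mul, add_zero, add_zero, Pi.smul_apply, smul_eq_mul]

theorem eH_pow0 (t : ZMod l) (n : ℕ) : (eH t 0 0 : WH l R) ^ n = eH ((n : ZMod l) * t) 0 0 :=
  Subtype.ext (by rw [SubmonoidClass.coe_pow]; exact hE_pow0 _ _)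

theorem eH_powi (t : ZMod l) (n : ℕ) : (eH 0 t 0 : WH l R) ^ n = eH 0 ((n : ZMod l) * t) 0 :=
  Subtype.ext (by rw [SubmonoidClass.coe_pow]; exact hE_powi _ _)

theorem eH_powj (t : ZMod l) (n : ℕ) : (eH 0 0 t : WH l R) ^ n = eH 0 0 ((n : ZMod l) * t) :=
  Subtype.ext (by rw [SubmonoidClass.coe_pow]; exact hE_powj _ _)

/-- the second generator -/
def y2 (l : ℕ) (R : Type) [CommRing R] [Fact l.Prime] [Good l R] : WH l R := eH 1 0 0 * weH l R

/-- the first generator -/
def x2 (l : ℕ) (R : Type) [CommRing R] [Fact l.Prime] [Good l R] : WH l R := quH 1 * eH 0 1 0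

theorem cop (l : ℕ) (R : Type) [CommRing R] [Fact l.Prime] [Good l R] {n : ℕ} (hn : n = 4 ∨ n = 10) :
    Nat.Coprime n l := by
  have hb := big l R
  have hp : l.Prime := Fact.out
  refine Nat.coprime_comm.1 ((hp.coprime_iff_not_dvd).2 fun hd => ?_)
  rcases hn with rfl | rfl
  · rw [show 4 = 2 * 2 from rfl, hp.dvd_mul] at hd
    rcases hd with hd | hd <;> · have := Nat.le_of_dvd (by norm_num) hd; omega
  · rw [show 10 = 2 * 5 from rfl, hp.dvd_mul] at hd
    rcases hd with hd | hd <;> · have := Nat.le_of_dvd (by norm_num) hd; omega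

/-- the central element and the Weyl element are powers of the second generator -/
theorem y2_pow {G : Type} [Group G] (φ : WH l R →* G) {P : Subgroup G} (h : φ (y2 l R) ∈ P) :
    φ (eH 1 0 0) ∈ P ∧ φ (weH l R) ∈ P := by
  have h1 : (y2 l R) ^ 4 = (eH 1 0 0) ^ 4 := by
    rw [y2, (show Commute (eH 1 0 0) (weH l R) from eH_center 1 _).mul_pow, weH_four, mul_one]
  have h2 : φ (eH 1 0 0) ^ 4 ∈ P := by
    rw [← map_pow, ← h1, map_pow]
    exact P.pow_mem h 4
  have h3 : φ (eH 1 0 0 : WH l R) ^ l = 1 := by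
    rw [← map_pow, eH_pow0, CharP.cast_eq_zero, zero_mul, eH_one, map_one]
  have h4 : φ (eH 1 0 0) ∈ P :=
    pow_coprime (Fact.out : l.Prime).one_lt h3 (cop l R (Or.inl rfl)) h2
  refine ⟨h4, ?_⟩
  have h5 : φ (weH l R) = (φ (eH 1 0 0))⁻¹ * φ (y2 l R) := by
    rw [y2, map_mul, inv_mul_cancel_left]
  rw [h5]
  exact P.mul_mem (P.inv_mem h4) h

theorem closure_xy : Subgroup.closure {x2 l R, y2 l R} = ⊤ := by
  set P : Subgroup (WH l R) := Subgroup.closure {x2 l R, y2 l R} with hP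
  have hx : x2 l R ∈ P := Subgroup.subset_closure (by simp)
  have hy : y2 l R ∈ P := Subgroup.subset_closure (by simp)
  obtain ⟨hz, hw⟩ := y2_pow (MonoidHom.id (WH l R)) (P := P) hy
  rw [MonoidHom.id_apply] at hz hw
  have hz' : ∀ t : ZMod l, (eH t 0 0 : WH l R) ∈ P := by
    intro t
    have h := P.pow_mem hz t.val
    rwa [eH_pow0, val_eq, mul_one] at h
  have hconj : ∀ t i j : ZMod l, (eH t i j : WH l R) ∈ P → (eH (t - i * j) j (-i) : WH l R) ∈ P := by
    intro t i j h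
    have h2 : (eH (t - i * j) j (-i) : WH l R) = weH l R * eH t i j * (weH l R)⁻¹ := by
      rw [weH_eH, mul_inv_cancel_right]
    rw [h2]
    exact P.mul_mem (P.mul_mem hw h) (P.inv_mem hw)
  -- the first noncentral element
  have h1 : (eH (-4) 2 (-4) : WH l R) ∈ P := by
    have e1 : weH l R * weH l R * x2 l R = quH 1 * eH 0 (-1) 0 * (weH l R * weH l R) := by
      rw [x2, ← mul_assoc, weH_qu, mul_assoc, mul_assoc, weH_eH, ← mul_assoc (weH l R) _ (weH l R),
        weH_eH, ← mul_assoc, ← mul_assoc, ← mul_assoc]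
      congr 3
      congr 1 <;> ring
    have e2 : (eH (-4) 2 (-4) : WH l R) =
        x2 l R * (weH l R * weH l R * x2 l R * (weH l R * weH l R)⁻¹)⁻¹ := by
      rw [e1, mul_inv_cancel_right, x2, mul_inv_rev, eH_inv]
      have e3 : quH 1 * eH 0 1 0 * (eH (-0 + 0 * -1) (-(-1)) (-0) * (quH 1)⁻¹ : WH l R) =
          quH 1 * (eH 0 1 0 * eH (-0 + 0 * -1) (-(-1)) (-0)) * (quH 1)⁻¹ := by
        simp only [mul_assoc]
      rw [e3, eH_mul, quH_eH]
      congr 1 <;> ring
    rw [e2]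
    have hww := P.mul_mem hw hw
    exact P.mul_mem hx (P.inv_mem (P.mul_mem (P.mul_mem hww hx) (P.inv_mem hww)))
  have h2 : (eH 4 (-4) (-2) : WH l R) ∈ P := by
    have := hconj _ _ _ h1
    have e1 : (-4 - 2 * -4 : ZMod l) = 4 := by ring
    rwa [e1] at this
  have hfix : ∀ {t i j : ZMod l} (t' : ZMod l), (eH t i j : WH l R) ∈ P → (eH t' i j : WH l R) ∈ P := by
    intro t i j t' h
    have e1 : (eH t' i j : WH l R) = eH (t' - t) 0 0 * eH t i j := by
      rw [eH_mul]; congr 1 <;> ring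
    rw [e1]
    exact P.mul_mem (hz' _) h
  have hX : (eH 0 1 0 : WH l R) ∈ P := by
    have h3 := P.mul_mem h1 (P.inv_mem (P.mul_mem h2 h2))
    rw [eH_mul, eH_inv, eH_mul] at h3
    have e1 : (2 + -(-4 + -4) : ZMod l) = ((10 : ℕ) : ZMod l) * 1 := by push_cast; ring
    have e2 : (-4 + -(-2 + -2) : ZMod l) = 0 := by ring
    rw [e1, e2] at h3
    have h4 := hfix 0 h3
    rw [← eH_powi] at h4
    refine pow_coprime (Fact.out : l.Prime).one_lt ?_ (cop l R (Or.inr rfl)) h4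
    rw [eH_powi, CharP.cast_eq_zero, zero_mul, eH_one]
  have hZ : (eH 0 0 1 : WH l R) ∈ P := by
    have h3 := P.inv_mem hX
    rw [eH_inv] at h3
    have h4 := hfix 0 (hconj _ _ _ h3)
    have e1 : (-0 : ZMod l) = 0 := neg_zero
    rw [neg_neg, e1] at h4
    exact h4
  have hQ : (quH 1 : WH l R) ∈ P := by
    have e1 : (quH 1 : WH l R) = x2 l R * (eH 0 1 0)⁻¹ := by rw [x2, mul_inv_cancel_right]
    rw [e1]
    exact P.mul_mem hx (P.inv_mem hX)
  have hQ' : (qpH 1 : WH l R) ∈ P := by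
    have e1 : (qpH 1 : WH l R) = (weH l R)⁻¹ * (quH 1 * weH l R) := by
      rw [← weH_qp, inv_mul_cancel_left]
    rw [e1]
    exact P.mul_mem (P.inv_mem hw) (P.mul_mem hQ hw)
  rw [eq_top_iff, ← closure_genH, Subgroup.closure_le]
  rintro ⟨g, hg⟩ hs
  have hs' : g ∈ gen l R := hs
  simp only [gen, Set.mem_insert_iff, Set.mem_singleton_iff] at hs'
  rcases hs' with rfl | rfl | rfl | rfl
  · exact hX
  · exact hZ
  · exact hQ
  · exact hQ'

/-- the group has two generators -/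
theorem two_gen (hR : ∀ r : R, ∃ n : ℕ, (n : R) = r) :
    Subgroup.closure {(⟨Pi.single 0 1, x2 l R⟩ : GG l R), ⟨0, y2 l R⟩} = ⊤ := by
  set P : Subgroup (GG l R) :=
    Subgroup.closure {(⟨Pi.single 0 1, x2 l R⟩ : GG l R), ⟨0, y2 l R⟩} with hP
  have hx : (⟨Pi.single 0 1, x2 l R⟩ : GG l R) ∈ P := Subgroup.subset_closure (by simp)
  have hy : Aff.inl (y2 l R) ∈ P := Subgroup.subset_closure (by right; rfl)
  obtain ⟨hz, hw⟩ := y2_pow Aff.inl hy
  have hsm : ∀ (r : R) (v : Fn l R), v ∈ Aff.tr P → r • v ∈ Aff.tr P := by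
    intro r v hv
    obtain ⟨n, rfl⟩ := hR r
    rw [Nat.cast_smul_eq_nsmul]
    exact (Aff.tr P).nsmul_mem hv n
  -- the translation
  have h1 : (Pi.single 0 1 : Fn l R) ∈ Aff.tr P := by
    obtain ⟨u, hu⟩ := isUnit_sub (R := R) (one_ne_zero : (1 : ZMod l) ≠ 0)
    have h2 : ((1 - e (1 : ZMod l) : R)) • (Pi.single 0 1 : Fn l R) ∈ Aff.tr P := by
      rw [Aff.mem_tr]
      have e1 : (⟨(1 - e (1 : ZMod l) : R) • (Pi.single 0 1 : Fn l R), 1⟩ : GG l R) =
          ⟨Pi.single 0 1, x2 l R⟩ * Aff.inl (eH 1 0 0) *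
            (Aff.inl (eH 1 0 0) * ⟨Pi.single 0 1, x2 l R⟩)⁻¹ := by
        rw [eq_mul_inv_iff_mul_eq]
        ext1
        · simp only [Aff.mul_v, Aff.inl_v, Aff.inl_h, one_smul, smul_zero, add_zero,
            zero_add, eH_smul, sub_smul]
          abel
        · simp only [Aff.mul_h, Aff.inl_h, one_mul]
          exact eH_center 1 _
      rw [e1]
      exact P.mul_mem (P.mul_mem hx hz) (P.inv_mem (P.mul_mem hz hx))
    have h3 := hsm (-(↑u⁻¹ : R)) _ h2
    rw [smul_smul] at h3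
    have e2 : -(↑u⁻¹ : R) * (1 - e (1 : ZMod l)) = 1 := by
      have : (1 - e (1 : ZMod l) : R) = -↑u := by rw [hu]; ring
      rw [this, neg_mul_neg, Units.inv_mul]
    rwa [e2, one_smul] at h3
  have hx' : Aff.inl (x2 l R) ∈ P := by
    have h2 := P.mul_mem (P.inv_mem (Aff.mem_tr.1 h1)) hx
    have e1 : (⟨Pi.single 0 1, 1⟩ : GG l R)⁻¹ * ⟨Pi.single 0 1, x2 l R⟩ = Aff.inl (x2 l R) := by
      rw [inv_mul_eq_iff_eq_mul]
      ext1 <;> simp
    rwa [e1] at h2
  have hinl : ∀ h : WH l R, Aff.inl h ∈ P := by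
    have : (⊤ : Subgroup (WH l R)) ≤ P.comap Aff.inl := by
      rw [← closure_xy, Subgroup.closure_le]
      intro s hs
      rcases hs with rfl | hs
      · exact hx'
      · rw [Set.mem_singleton_iff] at hs
        subst hs
        exact hy
    exact fun h => this (Subgroup.mem_top h)
  have hsingle : ∀ k : ZMod l, (Pi.single k 1 : Fn l R) ∈ Aff.tr P := by
    intro k
    have h2 := Aff.smul_mem_tr (hinl (eH 0 (-k) 0)) h1
    have e1 : (Aff.inl (eH 0 (-k) 0) : GG l R).h • (Pi.single 0 1 : Fn l R) = Pi.single k 1 := by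
      funext x
      rw [Aff.inl_h, smul_app]
      change (hE 0 (-k) 0 : Fn l R ≃ₗ[R] Fn l R) (Pi.single 0 1) x = _
      rw [hE_app, zero_mul, add_zero, e_zero, one_mul, Pi.single_apply, Pi.single_apply]
      congr 1
      exact propext ⟨fun h => by linear_combination h, fun h => by rw [h]; ring⟩
    rwa [e1] at h2
  have htr : ∀ v : Fn l R, v ∈ Aff.tr P := by
    intro v
    have h2 : v = ∑ k, v k • (Pi.single k 1 : Fn l R) := by
      funext x
      simp [Finset.sum_apply, Pi.single_apply]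
    rw [h2]
    exact (Aff.tr P).sum_mem fun k _ => hsm _ _ (hsingle k)
  rw [eq_top_iff]
  intro g _
  rw [Aff.eq_mul g]
  exact P.mul_mem (htr g.v) (hinl g.h)

end Pool.Agent.N729.EX
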