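import Pool.Agent.N729.EX.Ops
import Pool.Agent.N729.EX.Abs

set_option autoImplicit false
set_option linter.unusedSectionVars false

/-!
# Expanders: the group generated by the Heisenberg group and the Weil operators
-/

namespace Pool.Agent.N729.EX

open Finset Subgroup

variable {l : ℕ} {R : Type} [CommRing R] [Fact l.Prime] [Good l R]

/-- the generators -/
def gen (l : ℕ) (R : Type) [CommRing R] [Fact l.Prime] [Good l R] : Set (Fn l R ≃ₗ[R] Fn l R) :=
  {hE 0 1 0, hE 0 0 1, Qu 1, Qp 1}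

/-- the group -/
def WH (l : ℕ) (R : Type) [CommRing R] [Fact l.Prime] [Good l R] :
    Subgroup (Fn l R ≃ₗ[R] Fn l R) := closure (gen l R)

theorem hE_pow0 (t : ZMod l) (n : ℕ) :
    (hE t 0 0 : Fn l R ≃ₗ[R] Fn l R) ^ n = hE ((n : ZMod l) * t) 0 0 := by
  induction n with
  | zero => rw [pow_zero, Nat.cast_zero, zero_mul, hE_one]
  | succ n ih => rw [pow_succ, ih, hE_mul, Nat.cast_succ]; congr 1 <;> ring

theorem hE_powi (t : ZMod l) (n : ℕ) :
    (hE 0 t 0 : Fn l R ≃ₗ[R] Fn l R) ^ n = hE 0 ((n : ZMod l) * t) 0 := by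
  induction n with
  | zero => rw [pow_zero, Nat.cast_zero, zero_mul, hE_one]
  | succ n ih => rw [pow_succ, ih, hE_mul, Nat.cast_succ]; congr 1 <;> ring

theorem hE_powj (t : ZMod l) (n : ℕ) :
    (hE 0 0 t : Fn l R ≃ₗ[R] Fn l R) ^ n = hE 0 0 ((n : ZMod l) * t) := by
  induction n with
  | zero => rw [pow_zero, Nat.cast_zero, zero_mul, hE_one]
  | succ n ih => rw [pow_succ, ih, hE_mul, Nat.cast_succ]; congr 1 <;> ring

theorem hE_split (t i j : ZMod l) :
    (hE t i j : Fn l R ≃ₗ[R] Fn l R) = hE t 0 0 * hE 0 0 j * hE 0 i 0 := by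
  rw [hE_mul, hE_mul]; congr 1 <;> ring

theorem X_mem : (hE 0 1 0 : Fn l R ≃ₗ[R] Fn l R) ∈ WH l R := subset_closure (by simp [gen])
theorem Z_mem : (hE 0 0 1 : Fn l R ≃ₗ[R] Fn l R) ∈ WH l R := subset_closure (by simp [gen])
theorem Qu1_mem : (Qu 1 : Fn l R ≃ₗ[R] Fn l R) ∈ WH l R := subset_closure (by simp [gen])
theorem Qp1_mem : (Qp 1 : Fn l R ≃ₗ[R] Fn l R) ∈ WH l R := subset_closure (by simp [gen])

theorem val_eq (t : ZMod l) : ((t.val : ℕ) : ZMod l) = t := ZMod.natCast_zmod_val t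

theorem hE_mem (t i j : ZMod l) : (hE t i j : Fn l R ≃ₗ[R] Fn l R) ∈ WH l R := by
  have hi : (hE 0 i 0 : Fn l R ≃ₗ[R] Fn l R) ∈ WH l R := by
    have h := (WH l R).pow_mem (X_mem (l := l) (R := R)) i.val
    rwa [hE_powi, val_eq, mul_one] at h
  have hj : (hE 0 0 j : Fn l R ≃ₗ[R] Fn l R) ∈ WH l R := by
    have h := (WH l R).pow_mem (Z_mem (l := l) (R := R)) j.val
    rwa [hE_powj, val_eq, mul_one] at h
  have ht1 : (hE 1 0 0 : Fn l R ≃ₗ[R] Fn l R) ∈ WH l R := by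
    have h := (WH l R).mul_mem ((WH l R).mul_mem ((WH l R).mul_mem (X_mem (l := l) (R := R)) Z_mem)
      ((WH l R).inv_mem X_mem)) ((WH l R).inv_mem Z_mem)
    rw [hE_comm] at h
    have e : (1 * 1 - 0 * 0 : ZMod l) = 1 := by ring
    rwa [e] at h
  have ht : (hE t 0 0 : Fn l R ≃ₗ[R] Fn l R) ∈ WH l R := by
    have h := (WH l R).pow_mem ht1 t.val
    rwa [hE_pow0, val_eq, mul_one] at h
  rw [hE_split]
  exact (WH l R).mul_mem ((WH l R).mul_mem ht hj) hi

theorem HE_le : HE l R ≤ WH l R := by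
  rintro _ ⟨t, i, j, rfl⟩
  exact hE_mem t i j

theorem Qu_mem (α : ZMod l) : (Qu α : Fn l R ≃ₗ[R] Fn l R) ∈ WH l R := by
  have h := (WH l R).pow_mem (Qu1_mem (l := l) (R := R)) α.val
  rwa [Qu_pow, val_eq, mul_one] at h

theorem Qp_mem (α : ZMod l) : (Qp α : Fn l R ≃ₗ[R] Fn l R) ∈ WH l R := by
  have h := (WH l R).pow_mem (Qp1_mem (l := l) (R := R)) α.val
  rwa [Qp_pow, val_eq, mul_one] at h

theorem Wa_mem (α : ZMod l) : (Wa α : Fn l R ≃ₗ[R] Fn l R) ∈ WH l R :=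
  (WH l R).mul_mem ((WH l R).mul_mem (Qu_mem _) (Qp_mem _)) (Qu_mem _)

theorem Di_mem : (Di 4 (four_ne l R) : Fn l R ≃ₗ[R] Fn l R) ∈ WH l R := by
  rw [Di_eq]
  exact (WH l R).mul_mem (Wa_mem _) (Wa_mem _)

/-- the Heisenberg group is normal -/
theorem HE_conj {g h : Fn l R ≃ₗ[R] Fn l R} (hg : g ∈ WH l R) (hh : h ∈ HE l R) :
    g * h * g⁻¹ ∈ HE l R := by
  have key : ∀ g ∈ WH l R, (∀ h ∈ HE l R, g * h * g⁻¹ ∈ HE l R) ∧
      ∀ h ∈ HE l R, g⁻¹ * h * g ∈ HE l R := by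
    intro g hg
    induction hg using closure_induction with
    | mem x hx =>
      simp only [gen, Set.mem_insert_iff, Set.mem_singleton_iff] at hx
      have hE' : ∀ a ∈ HE l R, (∀ h ∈ HE l R, a * h * a⁻¹ ∈ HE l R) ∧
          ∀ h ∈ HE l R, a⁻¹ * h * a ∈ HE l R := fun a ha =>
        ⟨fun h hh => (HE l R).mul_mem ((HE l R).mul_mem ha hh) ((HE l R).inv_mem ha),
          fun h hh => (HE l R).mul_mem ((HE l R).mul_mem ((HE l R).inv_mem ha) hh) ha⟩
      rcases hx with rfl | rfl | rfl | rfl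
      · exact hE' _ ⟨_, _, _, rfl⟩
      · exact hE' _ ⟨_, _, _, rfl⟩
      · constructor
        · rintro _ ⟨t, i, j, rfl⟩
          exact ⟨_, _, _, Qu_hE _ _ _ _⟩
        · rintro _ ⟨t, i, j, rfl⟩
          refine ⟨t - -1 * i ^ 2, i, j - 2 * -1 * i, ?_⟩
          rw [← Qu_hE, Qu_inv, Qu_inv, neg_neg]
      · constructor
        · rintro _ ⟨t, i, j, rfl⟩
          exact ⟨_, _, _, Qp_hE _ _ _ _⟩
        · rintro _ ⟨t, i, j, rfl⟩
          refine ⟨t + -1 * j ^ 2, i + 2 * -1 * j, j, ?_⟩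
          rw [← Qp_hE, Qp_inv, Qp_inv, neg_neg]
    | one => exact ⟨fun h hh => by simpa using hh, fun h hh => by simpa using hh⟩
    | mul x y _ _ hx hy =>
      constructor
      · intro h hh
        have := hx.1 _ (hy.1 h hh)
        rwa [show x * (y * h * y⁻¹) * x⁻¹ = x * y * h * (x * y)⁻¹ by group] at this
      · intro h hh
        have := hy.2 _ (hx.2 h hh)
        rwa [show y⁻¹ * (x⁻¹ * h * x) * y = (x * y)⁻¹ * h * (x * y) by group] at this
    | inv x _ hx =>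
      exact ⟨fun h hh => by simpa using hx.2 h hh, fun h hh => by simpa using hx.1 h hh⟩
  exact (key g hg).1 h hh

theorem gen_pow {g : Fn l R ≃ₗ[R] Fn l R} (hg : g ∈ gen l R) : g ^ l = 1 := by
  simp only [gen, Set.mem_insert_iff, Set.mem_singleton_iff] at hg
  rcases hg with rfl | rfl | rfl | rfl
  · rw [hE_powi, CharP.cast_eq_zero, zero_mul, hE_one]
  · rw [hE_powj, CharP.cast_eq_zero, zero_mul, hE_one]
  · exact Qu_pow_l 1
  · exact Qp_pow_l 1

theorem Di_hE' (t i j : ZMod l) :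
    ((Di 4 (four_ne l R))⁻¹ * hE t i j * Di 4 (four_ne l R) : Fn l R ≃ₗ[R] Fn l R) =
      hE t (4 * i) (j / 4) := by
  have h4 := four_ne l R
  have h := Di_hE (R := R) h4 t (4 * i) (j / 4)
  have e1 : 4 * i / 4 = i := by field_simp
  have e2 : 4 * (j / 4) = j := by field_simp
  rw [e1, e2] at h
  rw [← h]
  group

theorem gen_conj {g : Fn l R ≃ₗ[R] Fn l R} (hg : g ∈ gen l R) :
    ∃ t ∈ WH l R, t * g * t⁻¹ = g ^ 16 := by
  have h4 := four_ne l R
  simp only [gen, Set.mem_insert_iff, Set.mem_singleton_iff] at hg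
  set D : Fn l R ≃ₗ[R] Fn l R := Di 4 h4 with hD
  have hDm : D ∈ WH l R := Di_mem
  rcases hg with rfl | rfl | rfl | rfl
  · refine ⟨D⁻¹ * D⁻¹, (WH l R).mul_mem ((WH l R).inv_mem hDm) ((WH l R).inv_mem hDm), ?_⟩
    have e : D⁻¹ * D⁻¹ * hE 0 1 0 * (D⁻¹ * D⁻¹)⁻¹ = D⁻¹ * (D⁻¹ * hE 0 1 0 * D) * D := by
      rw [mul_inv_rev, inv_inv]; simp only [mul_assoc]
    rw [e, Di_hE', Di_hE', hE_powi]
    congr 1
    · push_cast; norm_num
    · simp
  · refine ⟨D * D, (WH l R).mul_mem hDm hDm, ?_⟩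
    have e : D * D * hE 0 0 1 * (D * D)⁻¹ = D * (D * hE 0 0 1 * D⁻¹) * D⁻¹ := by group
    rw [e, Di_hE, Di_hE, hE_powj]
    congr 1
    · simp
    · push_cast; norm_num
  · refine ⟨D, hDm, ?_⟩
    rw [Di_Qu, Qu_pow]
    congr 1
    push_cast; norm_num
  · refine ⟨D⁻¹, (WH l R).inv_mem hDm, ?_⟩
    rw [inv_inv, Di_Qp, Qp_pow]
    congr 1
    push_cast; norm_num

/-! ### The group as a type -/

instance [Finite R] : Finite (Fn l R ≃ₗ[R] Fn l R) :=
  Finite.of_injective (fun f : Fn l R ≃ₗ[R] Fn l R => (f : Fn l R → Fn l R)) DFunLike.coe_injective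

/-- the generators as elements of the group -/
def genH (l : ℕ) (R : Type) [CommRing R] [Fact l.Prime] [Good l R] : Set (WH l R) :=
  Subtype.val ⁻¹' (gen l R)

theorem closure_genH : closure (genH l R) = ⊤ := closure_closure_coe_preimage

theorem genH_pow {g : WH l R} (hg : g ∈ genH l R) : g ^ l = 1 := by
  apply Subtype.ext
  rw [SubmonoidClass.coe_pow]
  exact gen_pow hg

theorem genH_conj {g : WH l R} (hg : g ∈ genH l R) : ∃ t : WH l R, t * g * t⁻¹ = g ^ 16 := by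
  obtain ⟨t, ht, h⟩ := gen_conj (show (g : Fn l R ≃ₗ[R] Fn l R) ∈ gen l R from hg)
  exact ⟨⟨t, ht⟩, Subtype.ext h⟩

theorem WH_perfect : commutator (WH l R) = ⊤ := by
  have hb := big l R
  refine perfect closure_genH (Fact.out : l.Prime).one_lt (fun s hs => genH_pow hs) ?_
    (fun s hs => genH_conj hs)
  refine (Nat.coprime_comm.1 (((Fact.out : l.Prime).coprime_iff_not_dvd).2 fun hd => ?_))
  have h15 : 15 = 3 * 5 := rfl
  rw [h15, (Fact.out : l.Prime).dvd_mul] at hd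
  rcases hd with hd | hd
  · have := Nat.le_of_dvd (by norm_num) hd; omega
  · have := Nat.le_of_dvd (by norm_num) hd; omega

theorem WH_index [Finite R] {K : Subgroup (WH l R)} (hK : K ≠ ⊤) : l ≤ K.index :=
  index_ge closure_genH (Fact.out : l.Prime) (fun _ hs => genH_pow hs) hK

/-- the Heisenberg group inside -/
def EH (l : ℕ) (R : Type) [CommRing R] [Fact l.Prime] [Good l R] : Subgroup (WH l R) :=
  (HE l R).subgroupOf (WH l R)

/-- its elements -/
def eH (t i j : ZMod l) : WH l R := ⟨hE t i j, hE_mem t i j⟩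

theorem eH_mul (t i j t' i' j' : ZMod l) : (eH t i j * eH t' i' j' : WH l R) =
    eH (t + t' + j' * i) (i + i') (j + j') := Subtype.ext (hE_mul _ _ _ _ _ _)

theorem eH_one : (eH 0 0 0 : WH l R) = 1 := Subtype.ext hE_one

theorem eH_inv (t i j : ZMod l) : (eH t i j : WH l R)⁻¹ = eH (-t + j * i) (-i) (-j) :=
  Subtype.ext (hE_inv _ _ _)

theorem eH_comm (t i j t' i' j' : ZMod l) :
    (eH t i j * eH t' i' j' * (eH t i j)⁻¹ * (eH t' i' j')⁻¹ : WH l R) =
      eH (i * j' - i' * j) 0 0 := Subtype.ext (hE_comm _ _ _ _ _ _)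

theorem eH_inj [Nontrivial R] {t i j t' i' j' : ZMod l}
    (h : (eH t i j : WH l R) = eH t' i' j') : t = t' ∧ i = i' ∧ j = j' :=
  hE_inj (congrArg Subtype.val h)

theorem mem_EH {g : WH l R} : g ∈ EH l R ↔ ∃ t i j, g = eH t i j := by
  rw [EH, mem_subgroupOf, mem_HE]
  constructor
  · rintro ⟨t, i, j, h⟩; exact ⟨t, i, j, Subtype.ext h⟩
  · rintro ⟨t, i, j, rfl⟩; exact ⟨t, i, j, rfl⟩

instance : (EH l R).Normal := ⟨fun _ hn g => HE_conj g.2 hn⟩

/-- the Heisenberg group as a set -/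
noncomputable def eHequiv [Nontrivial R] : ZMod l × ZMod l × ZMod l ≃ EH l R :=
  Equiv.ofBijective (fun p => ⟨eH p.1 p.2.1 p.2.2, mem_EH.2 ⟨_, _, _, rfl⟩⟩) (by
    constructor
    · rintro ⟨t, i, j⟩ ⟨t', i', j'⟩ h
      obtain ⟨h1, h2, h3⟩ := eH_inj (congrArg Subtype.val h)
      simp only at h1 h2 h3
      rw [h1, h2, h3]
    · rintro ⟨g, hg⟩
      obtain ⟨t, i, j, rfl⟩ := mem_EH.1 hg
      exact ⟨(t, i, j), rfl⟩)

theorem card_EH [Nontrivial R] : Nat.card (EH l R) = l ^ 3 := by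
  rw [← Nat.card_congr (eHequiv (l := l) (R := R)), Nat.card_prod, Nat.card_prod, Nat.card_zmod]
  ring

/-- the quadratic operators as elements of the group -/
def quH (α : ZMod l) : WH l R := ⟨Qu α, Qu_mem α⟩
/-- the quadratic operators as elements of the group -/
def qpH (α : ZMod l) : WH l R := ⟨Qp α, Qp_mem α⟩

theorem quH_eH (α t i j : ZMod l) : (quH α * eH t i j * (quH α)⁻¹ : WH l R) =
    eH (t - α * i ^ 2) i (j - 2 * α * i) := Subtype.ext (Qu_hE _ _ _ _)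

theorem qpH_eH (α t i j : ZMod l) : (qpH α * eH t i j * (qpH α)⁻¹ : WH l R) =
    eH (t + α * j ^ 2) (i + 2 * α * j) j := Subtype.ext (Qp_hE _ _ _ _)

end Pool.Agent.N729.EX
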