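import Pool.Agent.N729.EX.NE

set_option autoImplicit false
set_option linter.unusedSectionVars false

/-!
# Expanders: the groups have bottlenecks, second part
-/

namespace Pool.Agent.N729.EX

open Finset

theorem ncard_preimage {G : Type} [Finite G] {M F : ℕ} [NeZero M] (Θ : G → ZMod M)
    (hF : ∀ t, Nat.card {g // Θ g = t} = F) (T : Finset (ZMod M)) :
    {g | Θ g ∈ T}.ncard = T.card * F := by
  classical
  cases nonempty_fintype G
  have h1 : {g | Θ g ∈ T} = ((univ.filter fun g => Θ g ∈ T : Finset G) : Set G) := by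
    ext g; simp
  rw [h1, Set.ncard_coe_finset]
  rw [card_eq_sum_card_fiberwise (s := univ.filter fun g => Θ g ∈ T) (f := Θ) (t := T)
    (fun g hg => (mem_filter.1 (mem_coe.1 hg)).2)]
  rw [sum_const_nat (m := F)]
  intro t ht
  rw [← hF t, Nat.card_eq_fintype_card, Fintype.card_subtype]
  congr 1
  ext g
  simp only [mem_filter, mem_univ, true_and, and_iff_right_iff_imp]
  rintro rfl
  exact ht

theorem boundary_small {G : Type} [Group G] [Finite G] {M F : ℕ} (hM : 2 ≤ M) (Θ : G → ZMod M)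
    (hF : ∀ t, Nat.card {g // Θ g = t} = F) (hF0 : 0 < F) (S : Set G) {q : ℕ} (hq : 0 < q)
    (hS : ∀ g, ∀ s ∈ S, Near M q (Θ (g * s) - Θ g)) :
    ∃ X : Set G, X.Nonempty ∧ 2 * X.ncard ≤ Nat.card G ∧ q * (bd S X).ncard ≤ 4 * X.ncard := by
  classical
  have : NeZero M := ⟨by omega⟩
  set T : Finset (ZMod M) := univ.filter fun t : ZMod M => t.val < M / 2 with hT
  have hX := ncard_preimage Θ hF T
  have hall := ncard_preimage Θ hF (univ : Finset (ZMod M))
  rw [card_univ, ZMod.card] at hall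
  have hall2 : {g : G | Θ g ∈ (univ : Finset (ZMod M))} = Set.univ := by ext g; simp
  rw [hall2, Set.ncard_univ] at hall
  rw [hT, card_half] at hX
  rw [← hT] at hX
  have hM2 : 1 ≤ M / 2 := by omega
  refine ⟨{g | Θ g ∈ T}, ?_, ?_, ?_⟩
  · have : 0 < {g | Θ g ∈ T}.ncard := by rw [hX]; positivity
    exact (Set.ncard_pos).1 this
  · rw [hX, hall, ← mul_assoc]
    exact Nat.mul_le_mul_right _ (by omega)
  · set D : ℕ := (M - 1) / q with hD
    have hqD : q * D ≤ M - 1 := Nat.mul_div_le _ _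
    set T' : Finset (ZMod M) := (univ.filter fun t : ZMod M => t.val ∈ Ico (M / 2) (M / 2 + D)) ∪
      (univ.filter fun t : ZMod M => t.val ∈ Ico (M - D) M) with hT'
    have hT'c : T'.card ≤ 2 * D := by
      refine (card_union_le _ _).trans ?_
      have h1 := card_val_mem (M := M) (Ico (M / 2) (M / 2 + D))
      have h2 := card_val_mem (M := M) (Ico (M - D) M)
      rw [Nat.card_Ico] at h1 h2
      omega
    have hsub : bd S {g | Θ g ∈ T} ⊆ {g | Θ g ∈ T'} := by
      rintro g ⟨hg, x, hx, s, hs, rfl⟩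
      obtain ⟨z, hz, hzq⟩ := hS x s hs
      have hx' : (Θ x).val < M / 2 := (mem_filter.1 hx).2
      have hg' : M / 2 ≤ (Θ (x * s)).val := by
        by_contra hlt
        exact hg (mem_filter.2 ⟨mem_univ _, not_le.1 hlt⟩)
      have hlt : (Θ (x * s)).val < M := ZMod.val_lt _
      have hzD : z.natAbs ≤ D := by
        rw [hD, Nat.le_div_iff_mul_le hq]
        omega
      have hdvd : (M : ℤ) ∣ ((Θ x).val + z - (Θ (x * s)).val : ℤ) := by
        rw [← ZMod.intCast_zmod_eq_zero_iff_dvd]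
        push_cast
        rw [ZMod.natCast_zmod_val, ZMod.natCast_zmod_val, hz]
        ring
      obtain ⟨k, hk⟩ := hdvd
      change Θ (x * s) ∈ T'
      rw [hT', mem_union, mem_filter, mem_filter, mem_Ico, mem_Ico]
      have hMpos : (0 : ℤ) < M := by exact_mod_cast (by omega : 0 < M)
      rcases le_or_gt 0 k with hk0 | hk0
      · left
        refine ⟨mem_univ _, hg', ?_⟩
        have : 0 ≤ (M : ℤ) * k := by positivity
        omega
      · right
        refine ⟨mem_univ _, ?_, hlt⟩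
        have : (M : ℤ) * k ≤ -M := by nlinarith
        omega
    have h3 : (bd S {g | Θ g ∈ T}).ncard ≤ T'.card * F := by
      rw [← ncard_preimage Θ hF T']
      exact Set.ncard_le_ncard hsub (Set.toFinite _)
    rw [hX]
    calc q * (bd S {g | Θ g ∈ T}).ncard ≤ q * (2 * D * F) :=
          Nat.mul_le_mul_left _ (h3.trans (Nat.mul_le_mul_right _ hT'c))
      _ = 2 * (q * D) * F := by ring
      _ ≤ 2 * (M - 1) * F := Nat.mul_le_mul_right _ (Nat.mul_le_mul_left _ hqD)
      _ ≤ 4 * (M / 2) * F := Nat.mul_le_mul_right _ (by omega)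
      _ = 4 * (M / 2 * F) := by ring

variable {l m : ℕ} [Fact l.Prime] [NeZero m] [Good l (ZMod m)]

theorem key_near (S : Finset (GG l (ZMod m))) {q : ℕ} (hq : 0 < q)
    (h : (l * q) ^ (2 * l ^ 2 * S.card) < m) :
    ∃ a : ZMod m, a ≠ 0 ∧ ∀ s ∈ S, ∀ x : WH l (ZMod m), Near m q (a * (x • s.v) 0) := by
  classical
  have hl : 0 < l := (Fact.out : l.Prime).pos
  obtain ⟨a, ha, hnear⟩ := dirichlet (m := m) (Q := l * q)
    (ι := S × ZMod l × ZMod l × Bool)
    (fun i => if i.2.2.2 then e i.2.2.1 * (i.1 : GG l (ZMod m)).v i.2.1 else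
      (li l (ZMod m) * gs l (ZMod m) 1) * e i.2.2.1 * (i.1 : GG l (ZMod m)).v i.2.1)
    (by positivity) (by
      have hc : Fintype.card (S × ZMod l × ZMod l × Bool) = 2 * l ^ 2 * S.card := by
        rw [Fintype.card_prod, Fintype.card_prod, Fintype.card_prod, ZMod.card, Fintype.card_bool,
          Fintype.card_coe]
        ring
      rw [hc]
      exact h)
  refine ⟨a, ha, fun s hs x => ?_⟩
  rw [smul_app, ev_eq]
  have hs1 : ∀ (k t : ZMod l), Near m (l * q) (a * (e t * s.v k)) := fun k t => by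
    have := hnear (⟨s, hs⟩, k, t, true)
    simpa using this
  have hs2 : ∀ (k t : ZMod l), Near m (l * q)
      (a * ((li l (ZMod m) * gs l (ZMod m) 1) * e t * s.v k)) := fun k t => by
    have := hnear (⟨s, hs⟩, k, t, false)
    simpa using this
  rcases row_mem x.2 with ⟨ε, t, j, hε, hr⟩ | ⟨ε, b, c, d, hε, hr⟩
  · rw [hr]
    have e1 : ∑ k, rM ε t j k * s.v k = ε * (e t * s.v j) := by
      simp only [rM]
      rw [Finset.sum_eq_single j]
      · rw [if_pos rfl, mul_assoc]
      · intro k _ hk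
        rw [if_neg hk, zero_mul]
      · intro h
        exact absurd (mem_univ _) h
    rw [e1]
    have h2 := (hs1 j t).mono hl
    rcases hε with rfl | rfl
    · rwa [one_mul]
    · rw [neg_one_mul, mul_neg]
      exact h2.neg
  · rw [hr, mul_sum]
    refine Near.sum fun k => ?_
    have h2 := hs2 k (b * k ^ 2 + c * k + d)
    rw [rK]
    rcases hε with rfl | rfl
    · rw [one_mul]
      exact h2
    · have e1 : a * (-1 * (li l (ZMod m) * gs l (ZMod m) 1) * e (b * k ^ 2 + c * k + d) * s.v k) =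
          -(a * ((li l (ZMod m) * gs l (ZMod m) 1) * e (b * k ^ 2 + c * k + d) * s.v k)) := by ring
      rw [e1]
      exact h2.neg

/-- the bottleneck -/
theorem bottleneck (S : Finset (GG l (ZMod m))) {q : ℕ} (hq : 0 < q)
    (h : (l * q) ^ (2 * l ^ 2 * S.card) < m) :
    ∃ X : Set (GG l (ZMod m)), X.Nonempty ∧ 2 * X.ncard ≤ Nat.card (GG l (ZMod m)) ∧
      q * (bd (S : Set (GG l (ZMod m))) X).ncard ≤ 4 * X.ncard := by
  classical
  obtain ⟨a, ha, hnear⟩ := key_near S hq h
  obtain ⟨M, hM, φ, hφ, hred⟩ := reduce ha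
  let Θ : GG l (ZMod m) → ZMod M := fun g => φ (g.v 0)
  have hΘ : ∀ t, Nat.card {g // Θ g = t} = Nat.card {g // Θ g = 0} := by
    intro t
    obtain ⟨r, hr⟩ := hφ t
    refine (Nat.card_congr ((Equiv.mulLeft (Aff.tn (Pi.single 0 r) : GG l (ZMod m))).subtypeEquiv
      fun g => ?_)).symm
    change φ (g.v 0) = 0 ↔ φ ((Aff.tn (Pi.single 0 r) * g : GG l (ZMod m)).v 0) = t
    rw [Aff.mul_v, Aff.tn_v, Aff.tn_h, one_smul, Pi.add_apply, Pi.single_eq_same, map_add, hr,
      add_eq_left]
  have hpos : 0 < Nat.card {g // Θ g = 0} := by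
    have : Nonempty {g // Θ g = 0} := ⟨⟨1, by change φ 0 = 0; exact map_zero φ⟩⟩
    exact Nat.card_pos
  refine boundary_small hM Θ hΘ hpos (S : Set (GG l (ZMod m))) hq fun g s hs => ?_
  have e1 : Θ (g * s) - Θ g = φ ((g.h • s.v) 0) := by
    change φ ((g * s).v 0) - φ (g.v 0) = _
    rw [Aff.mul_v, Pi.add_apply, map_add, add_sub_cancel_left]
  rw [e1]
  exact hred _ _ (hnear s hs g.h)

end Pool.Agent.N729.EX
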