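import Pool.Agent.N729.EX.Gen
import Pool.Agent.N729.EX.NE2

set_option autoImplicit false
set_option linter.unusedSectionVars false

/-!
# Expanders: the rings
-/

namespace Pool.Agent.N729.EX

open Finset

/-- the modulus -/
def mm (l : ℕ) : ℕ := ∑ j ∈ range l, (2 ^ (l ^ 2)) ^ j

theorem mm_le {l : ℕ} (hl : 1 ≤ l) : mm l ≤ 2 ^ l ^ 3 := by
  have h2 : 2 ≤ 2 ^ (l ^ 2) := by
    calc 2 = 2 ^ 1 := rfl
      _ ≤ 2 ^ (l ^ 2) := Nat.pow_le_pow_right (by norm_num) (Nat.one_le_pow _ _ hl)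
  have h := Nat.geomSum_lt (s := range l) (n := l) h2 (fun k hk => mem_range.1 hk)
  refine h.le.trans ?_
  rw [← pow_mul]
  exact Nat.pow_le_pow_right (by norm_num) (by rw [← pow_succ])

theorem le_mm {l : ℕ} (hl : 1 ≤ l) : 2 ^ (l ^ 2 * (l - 1)) ≤ mm l := by
  rw [pow_mul]
  exact single_le_sum (f := fun j => (2 ^ (l ^ 2)) ^ j) (fun _ _ => Nat.zero_le _)
    (mem_range.2 (by omega))

theorem cast_mm (l : ℕ) (R : Type) [CommRing R] :
    ((mm l : ℕ) : R) = ∑ j ∈ range l, ((2 : R) ^ (l ^ 2)) ^ j := by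
  rw [mm]; push_cast; rfl

variable {l : ℕ} [hp : Fact l.Prime]

theorem mm_cop : Nat.Coprime l (mm l) := by
  have hl : l.Prime := hp.out
  have h2 : (2 : ZMod l) ^ l = 2 := ZMod.pow_card 2
  have hb : (2 : ZMod l) ^ (l ^ 2) = 2 := by rw [sq, pow_mul, h2, h2]
  have h := geom_sum_mul ((2 : ZMod l) ^ (l ^ 2)) l
  have h3 : ((mm l : ℕ) : ZMod l) = ∑ j ∈ range l, ((2 : ZMod l) ^ (l ^ 2)) ^ j := by
    rw [mm]; push_cast; rfl
  rw [← h3, hb, h2] at h
  have h4 : ((mm l : ℕ) : ZMod l) = 1 := by linear_combination h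
  have h5 : IsUnit ((mm l : ℕ) : ZMod l) := by rw [h4]; exact isUnit_one
  exact Nat.coprime_comm.1 ((ZMod.isUnit_iff_coprime _ _).1 h5)

theorem b_pow : ((2 : ZMod (mm l)) ^ (l ^ 2)) ^ l = 1 := by
  have h := geom_sum_mul ((2 : ZMod (mm l)) ^ (l ^ 2)) l
  have h3 := cast_mm l (ZMod (mm l))
  rw [← h3, ZMod.natCast_self, zero_mul] at h
  exact (sub_eq_zero.1 h.symm)

theorem one_lt_mm (h7 : 7 ≤ l) : 1 < mm l := by
  refine lt_of_lt_of_le ?_ (le_mm (by omega))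
  exact Nat.one_lt_two_pow (by
    have : 0 < l ^ 2 * (l - 1) := Nat.mul_pos (by positivity) (by omega)
    omega)

/-- the ring with its character -/
@[instance_reducible]
noncomputable def good (h7 : 7 ≤ l) : Good l (ZMod (mm l)) where
  e := AddChar.zmodChar l (ζ := (2 : ZMod (mm l)) ^ (l ^ 2)) b_pow
  sum := by
    simp_rw [AddChar.zmodChar_apply]
    have h3 := cast_mm l (ZMod (mm l))
    rw [ZMod.natCast_self] at h3
    rw [h3]
    symm
    refine sum_nbij' (fun n => (n : ZMod l)) ZMod.val ?_ ?_ ?_ ?_ ?_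
    · intro n _; exact mem_univ _
    · intro t _; exact mem_range.2 (ZMod.val_lt t)
    · intro n hn
      rw [ZMod.val_natCast, Nat.mod_eq_of_lt (mem_range.1 hn)]
    · intro t _; exact ZMod.natCast_zmod_val t
    · intro n hn
      rw [ZMod.val_natCast, Nat.mod_eq_of_lt (mem_range.1 hn)]
  li := (l : ZMod (mm l))⁻¹
  li_mul := by
    rw [mul_comm]
    exact ZMod.coe_mul_inv_eq_one l mm_cop
  big := h7

/-- polynomials grow slower than exponentials -/
theorem poly_lt (q B : ℕ) : ∃ N, ∀ l, N ≤ l → (l * q) ^ (2 * l ^ 2 * B) < 2 ^ (l ^ 2 * (l - 1)) := by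
  have h := tendsto_pow_const_div_const_pow_of_one_lt (2 * B) (r := (2 : ℝ)) (by norm_num)
  have hq : (0 : ℝ) < 1 / (2 * ((q : ℝ) + 1) ^ (2 * B)) := by positivity
  have h2 := (h.eventually (gt_mem_nhds hq)).and (Filter.eventually_ge_atTop 1)
  obtain ⟨N, hN⟩ := Filter.eventually_atTop.1 h2
  refine ⟨N, fun l hl => ?_⟩
  obtain ⟨h3, h1⟩ := hN l hl
  rw [div_lt_div_iff₀ (by positivity) (by positivity), one_mul] at h3
  have h4 : (l * (q + 1)) ^ (2 * B) * 2 < 2 ^ l := by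
    have : (((l * (q + 1)) ^ (2 * B) * 2 : ℕ) : ℝ) < ((2 ^ l : ℕ) : ℝ) := by
      push_cast
      rw [mul_pow]
      linarith
    exact_mod_cast this
  have h5 : (l * q) ^ (2 * B) < 2 ^ (l - 1) := by
    have h6 : 2 ^ l = 2 ^ (l - 1) * 2 := by
      rw [← pow_succ]; congr 1; omega
    rw [h6] at h4
    have h7 := lt_of_mul_lt_mul_right h4 (by norm_num)
    refine lt_of_le_of_lt (Nat.pow_le_pow_left (Nat.mul_le_mul_left _ (by omega)) _) h7
  have h8 : (l * q) ^ (2 * l ^ 2 * B) = ((l * q) ^ (2 * B)) ^ (l ^ 2) := by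
    rw [← pow_mul]; congr 1; ring
  have h9 : 2 ^ (l ^ 2 * (l - 1)) = (2 ^ (l - 1)) ^ (l ^ 2) := by
    rw [← pow_mul]; congr 1; ring
  rw [h8, h9]
  exact Nat.pow_lt_pow_left h5 (by positivity)

end Pool.Agent.N729.EX
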