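import Pool.Agent.N729.EX.A

set_option autoImplicit false
set_option linter.unusedSectionVars false

/-!
# Expanders: the groups have bottlenecks
-/

namespace Pool.Agent.N729.EX

open Finset

/-! ### Residues close to zero -/

/-- `r` has a representative of absolute value less than `m / q` -/
def Near (m q : ℕ) (r : ZMod m) : Prop := ∃ z : ℤ, (z : ZMod m) = r ∧ z.natAbs * q < m

theorem Near.neg {m q : ℕ} {r : ZMod m} (h : Near m q r) : Near m q (-r) := by
  obtain ⟨z, hz, hz'⟩ := h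
  exact ⟨-z, by rw [Int.cast_neg, hz], by rwa [Int.natAbs_neg]⟩

theorem Near.mono {m l q : ℕ} (hl : 1 ≤ l) {r : ZMod m} (h : Near m (l * q) r) : Near m q r := by
  obtain ⟨z, hz, hz'⟩ := h
  refine ⟨z, hz, lt_of_le_of_lt (Nat.mul_le_mul_left _ ?_) hz'⟩
  nlinarith

theorem Near.sum {m l q : ℕ} [Fact l.Prime] {f : ZMod l → ZMod m} (h : ∀ k, Near m (l * q) (f k)) :
    Near m q (∑ k, f k) := by
  choose z hz hz' using h
  refine ⟨∑ k, z k, by rw [Int.cast_sum]; exact sum_congr rfl fun k _ => hz k, ?_⟩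
  have h1 : (∑ k, z k).natAbs ≤ ∑ k, (z k).natAbs := Int.natAbs_sum_le _ _
  have h2 : ∑ k : ZMod l, (z k).natAbs * (l * q) < ∑ _k : ZMod l, m :=
    sum_lt_sum_of_nonempty univ_nonempty fun k _ => hz' k
  rw [sum_const, card_univ, ZMod.card, smul_eq_mul, ← sum_mul] at h2
  have h3 : l * ((∑ k, (z k).natAbs) * q) < l * m := by
    calc l * ((∑ k, (z k).natAbs) * q) = (∑ k, (z k).natAbs) * (l * q) := by ring
      _ < l * m := h2
  have h4 := lt_of_mul_lt_mul_left h3 (Nat.zero_le l)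
  exact lt_of_le_of_lt (Nat.mul_le_mul_right _ h1) h4

theorem dirichlet {m : ℕ} [NeZero m] {ι : Type} [Fintype ι] (r : ι → ZMod m) {Q : ℕ} (hQ : 0 < Q)
    (h : Q ^ Fintype.card ι < m) : ∃ a : ZMod m, a ≠ 0 ∧ ∀ i, Near m Q (a * r i) := by
  classical
  have hm : 0 < m := Nat.pos_of_ne_zero (NeZero.ne m)
  have hlt : ∀ (x : ZMod m), x.val * Q / m < Q := by
    intro x
    rw [Nat.div_lt_iff_lt_mul hm, mul_comm Q m]
    exact Nat.mul_lt_mul_of_pos_right (ZMod.val_lt x) hQ
  let F : ZMod m → (ι → Fin Q) := fun a i => ⟨(a * r i).val * Q / m, hlt _⟩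
  obtain ⟨a, a', hne, heq⟩ := Fintype.exists_ne_map_eq_of_card_lt F (by
    rw [Fintype.card_fun, Fintype.card_fin, ZMod.card]
    exact h)
  refine ⟨a - a', sub_ne_zero.2 hne, fun i => ?_⟩
  have h1 : (a * r i).val * Q / m = (a' * r i).val * Q / m := by
    have := congrFun heq i
    simpa [F] using this
  refine ⟨((a * r i).val : ℤ) - ((a' * r i).val : ℤ), ?_, ?_⟩
  · push_cast
    rw [ZMod.natCast_zmod_val, ZMod.natCast_zmod_val, sub_mul]
  · set u := (a * r i).val
    set v := (a' * r i).val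
    have h2 : v * Q / m * m ≤ v * Q := Nat.div_mul_le_self _ _
    have h3 : v * Q < (v * Q / m + 1) * m := by
      rw [mul_comm _ m]; exact Nat.lt_mul_div_succ _ hm
    have h4 : u * Q / m * m ≤ u * Q := Nat.div_mul_le_self _ _
    have h5 : u * Q < (u * Q / m + 1) * m := by
      rw [mul_comm _ m]; exact Nat.lt_mul_div_succ _ hm
    rw [h1] at h4 h5
    rw [add_mul, one_mul] at h3 h5
    rcases le_total u v with huv | huv
    · have h6 : ((u : ℤ) - v).natAbs = v - u := by omega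
      rw [h6, Nat.sub_mul]
      omega
    · have h6 : ((u : ℤ) - v).natAbs = u - v := by omega
      rw [h6, Nat.sub_mul]
      omega

/-- removing the common factor -/
theorem reduce {m : ℕ} [NeZero m] {a : ZMod m} (ha : a ≠ 0) :
    ∃ M : ℕ, 2 ≤ M ∧ ∃ φ : ZMod m →+ ZMod M, Function.Surjective φ ∧
      ∀ (q : ℕ) (r : ZMod m), Near m q (a * r) → Near M q (φ r) := by
  have hm : 0 < m := Nat.pos_of_ne_zero (NeZero.ne m)
  have hav : 0 < a.val := Nat.pos_of_ne_zero (by rwa [Ne, ZMod.val_eq_zero])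
  set d := Nat.gcd a.val m with hd
  have hdpos : 0 < d := Nat.gcd_pos_of_pos_right _ hm
  obtain ⟨M, hM⟩ : d ∣ m := Nat.gcd_dvd_right _ _
  obtain ⟨a', ha'⟩ : d ∣ a.val := Nat.gcd_dvd_left _ _
  have hcop : Nat.Coprime a' M := by
    have h1 := Nat.gcd_mul_left d a' M
    rw [← ha', ← hM, ← hd] at h1
    have : d * Nat.gcd a' M = d * 1 := by rw [← h1, mul_one]
    exact Nat.eq_of_mul_eq_mul_left hdpos this
  have hM2 : 2 ≤ M := by
    have h1 : a.val < m := ZMod.val_lt a
    have h2 : 1 ≤ a' := by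
      rcases Nat.eq_zero_or_pos a' with h | h
      · rw [h, mul_zero] at ha'; omega
      · exact h
    rw [ha', hM] at h1
    have h3 := lt_of_mul_lt_mul_left h1 (Nat.zero_le d)
    omega
  have hdvd : M ∣ m := ⟨d, by rw [hM, mul_comm]⟩
  refine ⟨M, hM2, (AddMonoidHom.mulLeft (a' : ZMod M)).comp
    (ZMod.castHom hdvd (ZMod M)).toAddMonoidHom, ?_, ?_⟩
  · have hu : IsUnit (a' : ZMod M) := (ZMod.isUnit_iff_coprime a' M).2 hcop
    obtain ⟨u, hu⟩ := hu
    intro t
    obtain ⟨s, hs⟩ := ZMod.castHom_surjective hdvd ((↑u⁻¹ : ZMod M) * t)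
    refine ⟨s, ?_⟩
    change (a' : ZMod M) * (ZMod.castHom hdvd (ZMod M)) s = t
    rw [hs, ← hu, ← mul_assoc, Units.mul_inv, one_mul]
  · rintro q r ⟨z, hz, hzq⟩
    have h1 : ((a.val * r.val - z : ℤ) : ZMod m) = 0 := by
      push_cast
      rw [ZMod.natCast_zmod_val, ZMod.natCast_zmod_val, hz, sub_self]
    rw [ZMod.intCast_zmod_eq_zero_iff_dvd] at h1
    have h2 : (d : ℤ) ∣ z := by
      have h3 : (d : ℤ) ∣ (m : ℤ) := by rw [hM]; push_cast; exact dvd_mul_right _ _
      have h4 : (d : ℤ) ∣ (a.val * r.val : ℤ) := by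
        rw [ha']; push_cast; exact ⟨a' * r.val, by ring⟩
      have h5 := dvd_sub h4 (h3.trans h1)
      rwa [sub_sub_cancel] at h5
    obtain ⟨z', rfl⟩ := h2
    refine ⟨z', ?_, ?_⟩
    · change (z' : ZMod M) = (a' : ZMod M) * (ZMod.castHom hdvd (ZMod M)) r
      rw [ZMod.castHom_apply, ← ZMod.natCast_val]
      have h6 : (M : ℤ) ∣ (a' * r.val - z' : ℤ) := by
        have h7 : ((d : ℤ) * M) ∣ (d : ℤ) * (a' * r.val - z') := by
          have : (m : ℤ) = (d : ℤ) * M := by rw [hM]; push_cast; ring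
          rw [← this]
          have h8 : (d : ℤ) * (a' * r.val - z') = a.val * r.val - d * z' := by
            rw [ha']; push_cast; ring
          rw [h8]
          exact h1
        exact Int.dvd_of_mul_dvd_mul_left (by exact_mod_cast hdpos.ne') h7
      have h9 := (ZMod.intCast_zmod_eq_zero_iff_dvd _ M).2 h6
      push_cast at h9
      exact (sub_eq_zero.1 h9).symm
    · rw [Int.natAbs_mul, Int.natAbs_natCast] at hzq
      have h10 : d * (z'.natAbs * q) < d * M := by
        rw [← mul_assoc, ← hM]; exact hzq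
      exact lt_of_mul_lt_mul_left h10 (Nat.zero_le d)

/-! ### The counting -/

/-- the vertex boundary in the Cayley graph -/
def bd {G : Type} [Group G] (S X : Set G) : Set G := {g | g ∉ X ∧ ∃ x ∈ X, ∃ s ∈ S, g = x * s}

theorem card_val_mem {M : ℕ} [NeZero M] (I : Finset ℕ) :
    (univ.filter fun t : ZMod M => t.val ∈ I).card ≤ I.card := by
  refine card_le_card_of_injOn ZMod.val (fun t ht => (mem_filter.1 ht).2) ?_
  intro a _ b _ h
  exact ZMod.val_injective M h

theorem card_half {M : ℕ} [NeZero M] :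
    (univ.filter fun t : ZMod M => t.val < M / 2).card = M / 2 := by
  have h : (range (M / 2)).card = M / 2 := card_range _
  rw [← h]
  have hM : 0 < M := Nat.pos_of_ne_zero (NeZero.ne M)
  refine card_nbij' ZMod.val (fun n => (n : ZMod M)) ?_ ?_ ?_ ?_
  · intro t ht
    have := (mem_filter.1 (mem_coe.1 ht)).2
    exact mem_coe.2 (mem_range.2 (by rw [h] at *; exact this))
  · intro n hn
    have h1 := mem_range.1 (mem_coe.1 hn)
    refine mem_coe.2 (mem_filter.2 ⟨mem_univ _, ?_⟩)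
    rw [ZMod.val_natCast, Nat.mod_eq_of_lt (by omega)]
    rw [h] at *
    exact h1
  · intro t _
    exact ZMod.natCast_zmod_val t
  · intro n hn
    have h1 := mem_range.1 (mem_coe.1 hn)
    change ((n : ZMod M)).val = n
    rw [ZMod.val_natCast, Nat.mod_eq_of_lt (by omega)]

end Pool.Agent.N729.EX
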