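import Pool.Agent.N729.EX.Ring

set_option autoImplicit false
set_option linter.unusedSectionVars false
set_option linter.unusedSimpArgs false

/-!
# Expanders, second part: the Heisenberg group and the Weil operators
-/

namespace Pool.Agent.N729.EX

open Finset

variable {l : ℕ} {R : Type} [CommRing R] [Fact l.Prime] [Good l R]

/-- the module of functions on `ZMod l` -/
abbrev Fn (l : ℕ) (R : Type) := ZMod l → R

/-- multiplication by a character -/
def Dg (φ : ZMod l → ZMod l) : Fn l R ≃ₗ[R] Fn l R where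
  toFun f := fun x => e (φ x) * f x
  map_add' f g := by funext x; simp [mul_add]
  map_smul' c f := by funext x; simp; ring
  invFun f := fun x => e (-(φ x)) * f x
  left_inv f := by
    funext x
    simp only
    rw [← mul_assoc, e_neg_mul, one_mul]
  right_inv f := by
    funext x
    simp only
    rw [← mul_assoc, e_mul_neg, one_mul]

/-- the shift -/
def Sh (i : ZMod l) : Fn l R ≃ₗ[R] Fn l R where
  toFun f := fun x => f (x + i)
  map_add' f g := by funext x; simp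
  map_smul' c f := by funext x; simp
  invFun f := fun x => f (x - i)
  left_inv f := by funext x; simp
  right_inv f := by funext x; simp

/-- the Fourier transform -/
def Fo : Fn l R ≃ₗ[R] Fn l R where
  toFun f := fun k => ∑ x, e (k * x) * f x
  map_add' f g := by funext x; simp [mul_add, sum_add_distrib]
  map_smul' c f := by
    funext x
    simp only [Pi.smul_apply, smul_eq_mul, RingHom.id_apply, mul_sum]
    exact sum_congr rfl fun y _ => by ring
  invFun f := fun x => li l R * ∑ k, e (-(k * x)) * f k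
  left_inv f := by
    funext x
    simp only [mul_sum]
    rw [sum_comm]
    have h : ∀ y : ZMod l, ∑ k : ZMod l, li l R * (e (-(k * x)) * (e (k * y) * f y)) =
        if y = x then f x else 0 := by
      intro y
      have h1 : ∀ k : ZMod l, li l R * (e (-(k * x)) * (e (k * y) * f y)) =
          li l R * f y * e ((y - x) * k) := by
        intro k
        rw [show (y - x) * k = -(k * x) + k * y by ring, e_add]
        ring
      simp_rw [h1]
      rw [← mul_sum, e_sum_mul]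
      by_cases hy : y = x
      · subst hy
        rw [sub_self, if_pos rfl, if_pos rfl]
        rw [mul_right_comm, li_mul, one_mul]
      · rw [if_neg (sub_ne_zero.2 hy), if_neg hy, mul_zero]
    rw [sum_congr rfl fun y _ => h y]
    simp
  right_inv f := by
    funext k
    simp only [mul_sum]
    rw [sum_comm]
    have h : ∀ j : ZMod l, ∑ x : ZMod l, e (k * x) * (li l R * (e (-(j * x)) * f j)) =
        if j = k then f k else 0 := by
      intro j
      have h1 : ∀ x : ZMod l, e (k * x) * (li l R * (e (-(j * x)) * f j)) =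
          li l R * f j * e ((k - j) * x) := by
        intro x
        rw [show (k - j) * x = k * x + -(j * x) by ring, e_add]
        ring
      simp_rw [h1]
      rw [← mul_sum, e_sum_mul]
      by_cases hy : j = k
      · subst hy
        rw [sub_self, if_pos rfl, if_pos rfl]
        rw [mul_right_comm, li_mul, one_mul]
      · rw [if_neg (sub_ne_zero.2 (Ne.symm hy)), if_neg hy, mul_zero]
    rw [sum_congr rfl fun j _ => h j]
    simp

/-- the dilation -/
def Di (a : ZMod l) (ha : a ≠ 0) : Fn l R ≃ₗ[R] Fn l R where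
  toFun f := fun x => f (a * x)
  map_add' f g := by funext x; simp
  map_smul' c f := by funext x; simp
  invFun f := fun x => f (a⁻¹ * x)
  left_inv f := by funext x; simp [← mul_assoc, ha]
  right_inv f := by funext x; simp [← mul_assoc, ha]

/-! ### Values -/

theorem Dg_app (φ : ZMod l → ZMod l) (f : Fn l R) (x : ZMod l) : Dg φ f x = e (φ x) * f x := rfl

theorem Sh_app (i : ZMod l) (f : Fn l R) (x : ZMod l) : (Sh i : Fn l R ≃ₗ[R] Fn l R) f x = f (x + i) :=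
  rfl

theorem Fo_app (f : Fn l R) (k : ZMod l) : Fo f k = ∑ x, e (k * x) * f x := rfl

theorem Fo_inv_app (f : Fn l R) (x : ZMod l) :
    (Fo : Fn l R ≃ₗ[R] Fn l R)⁻¹ f x = li l R * ∑ k, e (-(k * x)) * f k := rfl

theorem Di_app (a : ZMod l) (ha : a ≠ 0) (f : Fn l R) (x : ZMod l) :
    (Di a ha : Fn l R ≃ₗ[R] Fn l R) f x = f (a * x) := rfl

theorem mul_app (a b : Fn l R ≃ₗ[R] Fn l R) (f : Fn l R) : (a * b) f = a (b f) := rfl

theorem op_ext {a b : Fn l R ≃ₗ[R] Fn l R} (h : ∀ f x, a f x = b f x) : a = b :=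
  LinearEquiv.ext fun f => funext fun x => h f x

/-! ### Products -/

theorem Dg_mul (φ ψ : ZMod l → ZMod l) : (Dg φ * Dg ψ : Fn l R ≃ₗ[R] Fn l R) = Dg (φ + ψ) := by
  refine op_ext fun f x => ?_
  rw [mul_app, Dg_app, Dg_app, Dg_app, Pi.add_apply, e_add, mul_assoc]

theorem Dg_zero : (Dg 0 : Fn l R ≃ₗ[R] Fn l R) = 1 := by
  refine op_ext fun f x => ?_
  rw [Dg_app, Pi.zero_apply, e_zero, one_mul]
  rfl

theorem Dg_inv (φ : ZMod l → ZMod l) : (Dg φ : Fn l R ≃ₗ[R] Fn l R)⁻¹ = Dg (-φ) := by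
  rw [inv_eq_iff_mul_eq_one, Dg_mul, add_neg_cancel, Dg_zero]

theorem Dg_pow (φ : ZMod l → ZMod l) (n : ℕ) : (Dg φ : Fn l R ≃ₗ[R] Fn l R) ^ n = Dg (n • φ) := by
  induction n with
  | zero => rw [pow_zero, zero_smul, Dg_zero]
  | succ n ih => rw [pow_succ, ih, Dg_mul, succ_nsmul]

theorem Dg_pow_l (φ : ZMod l → ZMod l) : (Dg φ : Fn l R ≃ₗ[R] Fn l R) ^ l = 1 := by
  rw [Dg_pow]
  have : l • φ = 0 := by
    funext x
    simp
  rw [this, Dg_zero]

theorem Sh_mul (i j : ZMod l) : (Sh i * Sh j : Fn l R ≃ₗ[R] Fn l R) = Sh (i + j) := by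
  refine op_ext fun f x => ?_
  rw [mul_app, Sh_app, Sh_app, Sh_app, add_assoc]

theorem Sh_zero : (Sh 0 : Fn l R ≃ₗ[R] Fn l R) = 1 := by
  refine op_ext fun f x => ?_
  rw [Sh_app, add_zero]
  rfl

theorem Sh_inv (i : ZMod l) : (Sh i : Fn l R ≃ₗ[R] Fn l R)⁻¹ = Sh (-i) := by
  rw [inv_eq_iff_mul_eq_one, Sh_mul, add_neg_cancel, Sh_zero]

theorem Sh_pow (i : ZMod l) (n : ℕ) : (Sh i : Fn l R ≃ₗ[R] Fn l R) ^ n = Sh (n • i) := by
  induction n with
  | zero => rw [pow_zero, zero_smul, Sh_zero]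
  | succ n ih => rw [pow_succ, ih, Sh_mul, succ_nsmul]

theorem Sh_pow_l (i : ZMod l) : (Sh i : Fn l R ≃ₗ[R] Fn l R) ^ l = 1 := by
  rw [Sh_pow]
  have : l • i = 0 := by simp
  rw [this, Sh_zero]

/-- the shift past a multiplication -/
theorem Sh_Dg (i : ZMod l) (φ : ZMod l → ZMod l) :
    (Sh i * Dg φ : Fn l R ≃ₗ[R] Fn l R) = Dg (fun x => φ (x + i)) * Sh i := by
  refine op_ext fun f x => ?_
  rw [mul_app, mul_app, Sh_app, Dg_app, Dg_app, Sh_app]

/-! ### The Heisenberg group -/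

/-- its elements -/
def hE (t i j : ZMod l) : Fn l R ≃ₗ[R] Fn l R := Dg (fun x => t + j * x) * Sh i

theorem hE_app (t i j : ZMod l) (f : Fn l R) (x : ZMod l) :
    hE t i j f x = e (t + j * x) * f (x + i) := rfl

theorem hE_mul (t i j t' i' j' : ZMod l) : (hE t i j * hE t' i' j' : Fn l R ≃ₗ[R] Fn l R) =
    hE (t + t' + j' * i) (i + i') (j + j') := by
  refine op_ext fun f x => ?_
  rw [mul_app, hE_app, hE_app, hE_app, ← mul_assoc, ← e_add, add_assoc x i i']
  congr 2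
  ring

theorem hE_one : (hE 0 0 0 : Fn l R ≃ₗ[R] Fn l R) = 1 := by
  refine op_ext fun f x => ?_
  rw [hE_app, zero_mul, add_zero, e_zero, one_mul, add_zero]
  rfl

theorem hE_inv (t i j : ZMod l) : (hE t i j : Fn l R ≃ₗ[R] Fn l R)⁻¹ = hE (-t + j * i) (-i) (-j) := by
  rw [inv_eq_iff_mul_eq_one, hE_mul, ← hE_one]
  congr 1 <;> ring

theorem hE_comm (t i j t' i' j' : ZMod l) :
    (hE t i j * hE t' i' j' * (hE t i j)⁻¹ * (hE t' i' j')⁻¹ : Fn l R ≃ₗ[R] Fn l R) =
      hE (i * j' - i' * j) 0 0 := by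
  rw [hE_inv, hE_inv, hE_mul, hE_mul, hE_mul]
  congr 1 <;> ring

theorem hE_inj [Nontrivial R] {t i j t' i' j' : ZMod l}
    (h : (hE t i j : Fn l R ≃ₗ[R] Fn l R) = hE t' i' j') : t = t' ∧ i = i' ∧ j = j' := by
  have h1 : (hE (t + (-t' + j' * i') + (-j') * i) (i + -i') (j + -j') : Fn l R ≃ₗ[R] Fn l R) = 1 := by
    rw [← hE_mul, ← hE_inv, h, mul_inv_cancel]
  have key : ∀ (a b c : ZMod l), (hE a b c : Fn l R ≃ₗ[R] Fn l R) = 1 → a = 0 ∧ b = 0 ∧ c = 0 := by
    intro a b c habc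
    have hb : b = 0 := by
      by_contra hb
      have h2 := congrFun (congrArg (fun g : Fn l R ≃ₗ[R] Fn l R => g (Pi.single 0 1)) habc) (-b)
      simp only [hE_app] at h2
      rw [neg_add_cancel, Pi.single_eq_same, mul_one] at h2
      have h3 : (1 : Fn l R ≃ₗ[R] Fn l R) (Pi.single 0 1) (-b) = 0 := by
        change (Pi.single 0 1 : Fn l R) (-b) = 0
        rw [Pi.single_eq_of_ne (neg_ne_zero.2 hb)]
      rw [h3] at h2
      have h4 := e_neg_mul (R := R) (a + c * -b)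
      rw [h2, mul_zero] at h4
      exact zero_ne_one h4
    subst hb
    have h5 : ∀ x : ZMod l, a + c * x = 0 := by
      intro x
      have h2 := congrFun (congrArg (fun g : Fn l R ≃ₗ[R] Fn l R => g (fun _ => 1)) habc) x
      simp only [hE_app] at h2
      rw [mul_one] at h2
      exact e_eq_one h2
    have h6 := h5 0
    have h7 := h5 1
    rw [mul_zero, add_zero] at h6
    subst h6
    rw [zero_add, mul_one] at h7
    exact ⟨rfl, rfl, h7⟩
  obtain ⟨k1, k2, k3⟩ := key _ _ _ h1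
  have e2 : i = i' := by linear_combination k2
  have e3 : j = j' := by linear_combination k3
  subst e2 e3
  exact ⟨by linear_combination k1, rfl, rfl⟩

/-- the Heisenberg group -/
def HE (l : ℕ) (R : Type) [CommRing R] [Fact l.Prime] [Good l R] : Subgroup (Fn l R ≃ₗ[R] Fn l R) where
  carrier := {g | ∃ t i j, g = hE t i j}
  mul_mem' := by
    rintro _ _ ⟨t, i, j, rfl⟩ ⟨t', i', j', rfl⟩
    exact ⟨_, _, _, hE_mul _ _ _ _ _ _⟩
  one_mem' := ⟨0, 0, 0, hE_one.symm⟩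
  inv_mem' := by
    rintro _ ⟨t, i, j, rfl⟩
    exact ⟨_, _, _, hE_inv _ _ _⟩

theorem mem_HE {g : Fn l R ≃ₗ[R] Fn l R} : g ∈ HE l R ↔ ∃ t i j, g = hE t i j := Iff.rfl

/-! ### The Fourier transform -/

theorem Fo_hE (t i j : ZMod l) : (Fo * hE t i j : Fn l R ≃ₗ[R] Fn l R) = hE (t - i * j) j (-i) * Fo := by
  refine op_ext fun f k => ?_
  rw [mul_app, mul_app, Fo_app, hE_app, Fo_app, mul_sum]
  refine Fintype.sum_equiv (Equiv.addRight i) _ _ fun x => ?_
  change e (k * x) * hE t i j f x = e (t - i * j + -i * k) * (e ((k + j) * (x + i)) * f (x + i))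
  rw [hE_app, ← mul_assoc, ← mul_assoc, ← e_add, ← e_add]
  congr 2
  ring

theorem Fo_conj (t i j : ZMod l) : (Fo * hE t i j * Fo⁻¹ : Fn l R ≃ₗ[R] Fn l R) =
    hE (t - i * j) j (-i) := by
  rw [Fo_hE, mul_inv_cancel_right]

theorem Fo_conj' (t i j : ZMod l) : (Fo⁻¹ * hE t i j * Fo : Fn l R ≃ₗ[R] Fn l R) =
    hE (t - i * j) (-j) i := by
  have h := Fo_conj (R := R) (t - i * j) (-j) i
  have e1 : t - i * j - -j * i = t := by ring
  rw [e1, neg_neg] at h
  rw [← h]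
  group

/-! ### The quadratic operators -/

/-- multiplication by a quadratic phase -/
def Qu (α : ZMod l) : Fn l R ≃ₗ[R] Fn l R := Dg fun x => α * x ^ 2

/-- its conjugate by the Fourier transform -/
def Qp (β : ZMod l) : Fn l R ≃ₗ[R] Fn l R := Fo⁻¹ * Qu β * Fo

theorem Qu_mul (α β : ZMod l) : (Qu α * Qu β : Fn l R ≃ₗ[R] Fn l R) = Qu (α + β) := by
  rw [Qu, Qu, Qu, Dg_mul]
  congr 1
  funext x
  simp only [Pi.add_apply]
  ring

theorem Qu_zero : (Qu 0 : Fn l R ≃ₗ[R] Fn l R) = 1 := by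
  rw [Qu, ← Dg_zero]
  congr 1
  funext x
  simp

theorem Qu_inv (α : ZMod l) : (Qu α : Fn l R ≃ₗ[R] Fn l R)⁻¹ = Qu (-α) := by
  rw [inv_eq_iff_mul_eq_one, Qu_mul, add_neg_cancel, Qu_zero]

theorem Qu_pow (α : ZMod l) (n : ℕ) : (Qu α : Fn l R ≃ₗ[R] Fn l R) ^ n = Qu ((n : ZMod l) * α) := by
  induction n with
  | zero => rw [pow_zero, Nat.cast_zero, zero_mul, Qu_zero]
  | succ n ih => rw [pow_succ, ih, Qu_mul, Nat.cast_succ]; congr 1; ring

theorem conj_pow' (a b : Fn l R ≃ₗ[R] Fn l R) (n : ℕ) : (a⁻¹ * b * a) ^ n = a⁻¹ * b ^ n * a := by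
  have := conj_pow (a := a⁻¹) (b := b) (i := n)
  simpa using this

theorem Qp_mul (α β : ZMod l) : (Qp α * Qp β : Fn l R ≃ₗ[R] Fn l R) = Qp (α + β) := by
  rw [Qp, Qp, Qp, ← Qu_mul]
  group

theorem Qp_zero : (Qp 0 : Fn l R ≃ₗ[R] Fn l R) = 1 := by
  rw [Qp, Qu_zero]; group

theorem Qp_inv (α : ZMod l) : (Qp α : Fn l R ≃ₗ[R] Fn l R)⁻¹ = Qp (-α) := by
  rw [inv_eq_iff_mul_eq_one, Qp_mul, add_neg_cancel, Qp_zero]

theorem Qp_pow (α : ZMod l) (n : ℕ) : (Qp α : Fn l R ≃ₗ[R] Fn l R) ^ n = Qp ((n : ZMod l) * α) := by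
  induction n with
  | zero => rw [pow_zero, Nat.cast_zero, zero_mul, Qp_zero]
  | succ n ih => rw [pow_succ, ih, Qp_mul, Nat.cast_succ]; congr 1; ring

theorem Qu_pow_l (α : ZMod l) : (Qu α : Fn l R ≃ₗ[R] Fn l R) ^ l = 1 := by
  rw [Qu_pow, CharP.cast_eq_zero, zero_mul, Qu_zero]

theorem Qp_pow_l (α : ZMod l) : (Qp α : Fn l R ≃ₗ[R] Fn l R) ^ l = 1 := by
  rw [Qp_pow, CharP.cast_eq_zero, zero_mul, Qp_zero]

theorem Qu_hE (α t i j : ZMod l) : (Qu α * hE t i j * (Qu α)⁻¹ : Fn l R ≃ₗ[R] Fn l R) =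
    hE (t - α * i ^ 2) i (j - 2 * α * i) := by
  rw [Qu_inv]
  refine op_ext fun f x => ?_
  rw [mul_app, mul_app, Qu, Qu, Dg_app, hE_app, Dg_app, hE_app, ← mul_assoc, ← mul_assoc, ← e_add,
    ← e_add]
  congr 2
  ring

theorem Qp_hE (β t i j : ZMod l) : (Qp β * hE t i j * (Qp β)⁻¹ : Fn l R ≃ₗ[R] Fn l R) =
    hE (t + β * j ^ 2) (i + 2 * β * j) j := by
  have h1 : (Qp β * hE t i j * (Qp β)⁻¹ : Fn l R ≃ₗ[R] Fn l R) =
      Fo⁻¹ * (Qu β * (Fo * hE t i j * Fo⁻¹) * (Qu β)⁻¹) * Fo := by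
    rw [Qp]; group
  rw [h1, Fo_conj, Qu_hE, Fo_conj']
  congr 1 <;> ring

/-- the kernel of the conjugate operator -/
theorem Qp_app {β : ZMod l} (hβ : β ≠ 0) (f : Fn l R) (x : ZMod l) :
    Qp β f x = li l R * gs l R β * ∑ y, e (-((x - y) ^ 2 / (4 * β))) * f y := by
  rw [Qp, mul_app, mul_app, Fo_inv_app]
  have h1 : ∀ k : ZMod l, e (-(k * x)) * Qu β (Fo f) k =
      ∑ y : ZMod l, e (β * k ^ 2 + (y - x) * k) * f y := by
    intro k
    rw [Qu, Dg_app, Fo_app, mul_sum, mul_sum]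
    refine sum_congr rfl fun y _ => ?_
    rw [← mul_assoc, ← mul_assoc, ← e_add, ← e_add]
    congr 2
    ring
  simp_rw [h1]
  rw [sum_comm, mul_assoc, mul_sum (a := gs l R β)]
  congr 1
  refine sum_congr rfl fun y _ => ?_
  rw [← sum_mul, quad_sum hβ]
  have e1 : -((y - x) ^ 2 / (4 * β)) = -((x - y) ^ 2 / (4 * β)) := by ring
  rw [e1]
  ring

/-- the operator with kernel `e (2 α x y)` -/
def Wa (α : ZMod l) : Fn l R ≃ₗ[R] Fn l R := Qu α * Qp (1 / (4 * α)) * Qu α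

theorem Wa_app {α : ZMod l} (hα : α ≠ 0) (f : Fn l R) (x : ZMod l) :
    Wa α f x = li l R * gs l R α * ∑ y, e (2 * α * x * y) * f y := by
  have h2 := two_ne l R
  have h4 := four_ne l R
  have hβ : 1 / (4 * α) ≠ 0 := one_div_ne_zero (mul_ne_zero h4 hα)
  rw [Wa, mul_app, mul_app, Qu, Dg_app, Qp_app hβ]
  have h5 : gs l R (1 / (4 * α)) = gs l R α := by
    rw [← gs_sq α (c := 1 / (2 * α)) (one_div_ne_zero (mul_ne_zero h2 hα))]
    congr 1
    field_simp
    norm_num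
  rw [h5, mul_left_comm, mul_sum]
  congr 1
  refine sum_congr rfl fun y _ => ?_
  rw [Dg_app, ← mul_assoc, ← mul_assoc, ← e_add, ← e_add]
  congr 2
  field_simp
  ring

theorem Di_eq : (Di 4 (four_ne l R) : Fn l R ≃ₗ[R] Fn l R) = Wa 4 * Wa (-1) := by
  have h2 := two_ne l R
  have h4 := four_ne l R
  have h1 : (-1 : ZMod l) ≠ 0 := neg_ne_zero.2 one_ne_zero
  refine op_ext fun f x => ?_
  rw [mul_app, Wa_app h4, Di_app]
  have e1 : ∀ y : ZMod l, e (2 * 4 * x * y) * Wa (-1) f y =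
      ∑ z : ZMod l, li l R * gs l R (-1) * f z * e ((8 * x - 2 * z) * y) := by
    intro y
    rw [Wa_app h1, mul_left_comm, mul_sum, mul_sum]
    refine sum_congr rfl fun z _ => ?_
    have : (8 * x - 2 * z) * y = 2 * 4 * x * y + 2 * -1 * y * z := by ring
    rw [this, e_add]
    ring
  simp_rw [e1]
  rw [sum_comm]
  have e2 : ∀ z : ZMod l, ∑ y : ZMod l, li l R * gs l R (-1) * f z * e ((8 * x - 2 * z) * y) =
      if z = 4 * x then li l R * gs l R (-1) * f (4 * x) * (l : R) else 0 := by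
    intro z
    rw [← mul_sum, e_sum_mul]
    by_cases hz : z = 4 * x
    · subst hz
      rw [if_pos (by ring), if_pos rfl]
    · rw [if_neg hz, if_neg, mul_zero]
      intro h
      apply hz
      have : 2 * z = 2 * (4 * x) := by linear_combination -h
      exact mul_left_cancel₀ h2 this
  simp_rw [e2]
  rw [sum_ite_eq' univ (4 * x) (fun _ => _), if_pos (mem_univ _)]
  have h5 : gs l R 4 = gs l R 1 := by
    rw [← gs_sq 1 (c := 2) h2]
    congr 1
    norm_num
  rw [h5]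
  have h6 := gs_mul_neg (l := l) (R := R)
  have h7 := li_mul (l := l) (R := R)
  calc f (4 * x) = (li l R * l) * (li l R * l) * f (4 * x) := by rw [h7]; ring
    _ = (li l R * (gs l R 1 * gs l R (-1))) * (li l R * l) * f (4 * x) := by rw [h6]
    _ = _ := by ring

/-! ### Conjugation by the dilation -/

theorem Di_hE {a : ZMod l} (ha : a ≠ 0) (t i j : ZMod l) :
    (Di a ha * hE t i j * (Di a ha)⁻¹ : Fn l R ≃ₗ[R] Fn l R) = hE t (i / a) (a * j) := by
  rw [mul_inv_eq_iff_eq_mul]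
  refine op_ext fun f x => ?_
  rw [mul_app, mul_app, Di_app, hE_app, hE_app, Di_app]
  have e1 : a * (x + i / a) = a * x + i := by field_simp
  rw [e1]
  congr 2
  ring

theorem Di_Qu {a : ZMod l} (ha : a ≠ 0) (α : ZMod l) :
    (Di a ha * Qu α * (Di a ha)⁻¹ : Fn l R ≃ₗ[R] Fn l R) = Qu (a ^ 2 * α) := by
  rw [mul_inv_eq_iff_eq_mul]
  refine op_ext fun f x => ?_
  rw [mul_app, mul_app, Di_app, Qu, Qu, Dg_app, Dg_app, Di_app]
  congr 2
  ring

theorem Fo_Di {a : ZMod l} (ha : a ≠ 0) :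
    (Fo * Di a ha : Fn l R ≃ₗ[R] Fn l R) = (Di a ha)⁻¹ * Fo := by
  rw [eq_inv_mul_iff_mul_eq]
  refine op_ext fun f k => ?_
  rw [mul_app, mul_app, Di_app, Fo_app, Fo_app]
  refine Fintype.sum_equiv (Equiv.mulLeft₀ a ha) _ _ fun x => ?_
  change e (a * k * x) * f (a * x) = e (k * (a * x)) * f (a * x)
  congr 2
  ring

theorem Di_Qp {a : ZMod l} (ha : a ≠ 0) (α : ZMod l) :
    ((Di a ha)⁻¹ * Qp α * Di a ha : Fn l R ≃ₗ[R] Fn l R) = Qp (a ^ 2 * α) := by
  have h := Fo_Di (R := R) ha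
  have h2 : ((Di a ha)⁻¹ * Fo⁻¹ : Fn l R ≃ₗ[R] Fn l R) = Fo⁻¹ * Di a ha := by
    have := congrArg (fun g : Fn l R ≃ₗ[R] Fn l R => g⁻¹) h
    simpa [mul_inv_rev] using this
  rw [Qp, Qp, ← Di_Qu ha]
  calc ((Di a ha)⁻¹ * (Fo⁻¹ * Qu α * Fo) * Di a ha : Fn l R ≃ₗ[R] Fn l R)
      = ((Di a ha)⁻¹ * Fo⁻¹) * Qu α * (Fo * Di a ha) := by group
    _ = _ := by rw [h, h2]; group

end Pool.Agent.N729.EX
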