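import Pool.Agent.N729.EX.Sub

set_option autoImplicit false
set_option linter.unusedSectionVars false

/-!
# Expanders: representations of small degree
-/

namespace Pool.Agent.N729.EX

open Module

/-! ### Counting irreducible representations -/

section count

variable {G : Type} [Group G] [Finite G] {ι : Type} [Fintype ι] {W : ι → Type}
  [∀ i, AddCommGroup (W i)] [∀ i, Module ℂ (W i)] [∀ i, FiniteDimensional ℂ (W i)]
  (ρ : ∀ i, Representation ℂ G (W i))

theorem indep (hirr : ∀ i, (ρ i).IsIrreducible)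
    (hne : Pairwise fun i j => IsEmpty ((ρ i).Equiv (ρ j))) :
    LinearIndependent ℂ (fun i => ((ρ i).character : G → ℂ)) := by
  classical
  cases nonempty_fintype G
  have hinv : Invertible (Nat.card G : ℂ) := invertibleOfNonzero (by
    have : Nat.card G ≠ 0 := Nat.card_pos.ne'
    exact_mod_cast this)
  rw [Fintype.linearIndependent_iff]
  intro c hc j
  have key : ∀ i, (Nat.card G : ℂ)⁻¹ * ∑ g : G, (ρ i).character g * (ρ j).character g⁻¹ =
      if i = j then 1 else 0 := by
    intro i
    have := hirr i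
    have := hirr j
    rw [Representation.char_orthonormal (ρ i) (ρ j)]
    by_cases hij : i = j
    · subst hij
      rw [if_pos rfl, if_pos ⟨Representation.Equiv.refl _⟩]
    · rw [if_neg hij, if_neg]
      rintro ⟨φ⟩
      exact (hne (Ne.symm hij)).false φ
  have h1 : (Nat.card G : ℂ)⁻¹ * ∑ g : G, (∑ i, c i • (ρ i).character) g * (ρ j).character g⁻¹ = 0 := by
    rw [hc]; simp
  have h2 : (Nat.card G : ℂ)⁻¹ * ∑ g : G, (∑ i, c i • (ρ i).character) g * (ρ j).character g⁻¹ =
      ∑ i, c i * ((Nat.card G : ℂ)⁻¹ * ∑ g : G, (ρ i).character g * (ρ j).character g⁻¹) := by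
    simp only [Finset.sum_apply, Pi.smul_apply, smul_eq_mul, Finset.sum_mul, Finset.mul_sum]
    rw [Finset.sum_comm]
    refine Finset.sum_congr rfl fun i _ => Finset.sum_congr rfl fun g _ => ?_
    ring
  rw [h2] at h1
  simp_rw [key] at h1
  simpa using h1

theorem count {Y : Type} [Finite Y] (f : G → Y) (hf : Function.Surjective f)
    (hirr : ∀ i, (ρ i).IsIrreducible) (hne : Pairwise fun i j => IsEmpty ((ρ i).Equiv (ρ j)))
    (h : ∀ i g g', f g = f g' → (ρ i).character g = (ρ i).character g') :
    Fintype.card ι ≤ Nat.card Y := by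
  classical
  cases nonempty_fintype Y
  have h1 := indep ρ hirr hne
  let ψ : ι → (Y → ℂ) := fun i y => (ρ i).character (Function.surjInv hf y)
  have hψ : (fun i => ((ρ i).character : G → ℂ)) = (LinearMap.funLeft ℂ ℂ f) ∘ ψ := by
    funext i g
    change (ρ i).character g = (ρ i).character (Function.surjInv hf (f g))
    exact h i _ _ (Function.surjInv_eq hf (f g)).symm
  rw [hψ] at h1
  have h2 := LinearIndependent.of_comp _ h1
  have h3 := h2.fintype_card_le_finrank
  rw [Module.finrank_fintype_fun_eq_card] at h3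
  rwa [Nat.card_eq_fintype_card]

end count

/-! ### Elements conjugate to their sixteenth power -/

theorem exists_eigen {W : Type} [AddCommGroup W] [Module ℂ W] [FiniteDimensional ℂ W]
    {A : End ℂ W} {l : ℕ} (hl : 0 < l) (hA : A ^ l = 1) (hA1 : A ≠ 1) :
    ∃ c : ℂ, c ≠ 1 ∧ c ^ l = 1 ∧ A.HasEigenvalue c := by
  classical
  set B : End ℂ W := ∑ j ∈ Finset.range l, A ^ j with hB
  have hBA : B * (A - 1) = 0 := by
    rw [hB, geom_sum_mul, hA, sub_self]
  have hcomm : Commute A B := by
    rw [hB]
    exact Commute.sum_right _ _ _ fun j _ => (Commute.refl A).pow_right j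
  have hker : LinearMap.ker B ≠ ⊥ := by
    intro hk
    apply hA1
    have hinj : Function.Injective B := LinearMap.ker_eq_bot.1 hk
    ext w
    have h1 : B ((A - 1) w) = B 0 := by
      rw [map_zero, ← End.mul_apply, hBA]; rfl
    have h2 := hinj h1
    rw [LinearMap.sub_apply, sub_eq_zero] at h2
    exact h2
  have hmap : ∀ w ∈ LinearMap.ker B, A w ∈ LinearMap.ker B := by
    intro w hw
    rw [LinearMap.mem_ker] at hw ⊢
    rw [← End.mul_apply, ← hcomm.eq, End.mul_apply, hw, map_zero]
  have : Nontrivial (LinearMap.ker B) := Submodule.nontrivial_iff_ne_bot.2 hker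
  obtain ⟨c, hc⟩ := End.exists_eigenvalue (A.restrict hmap)
  obtain ⟨w, hw⟩ := hc.exists_hasEigenvector
  have hw1 : A (w : W) = c • (w : W) := by
    have := hw.apply_eq_smul
    exact congrArg Subtype.val this
  have hw0 : (w : W) ≠ 0 := fun h => hw.2 (Subtype.ext h)
  have hpow : ∀ j : ℕ, (A ^ j) (w : W) = c ^ j • (w : W) := by
    intro j
    induction j with
    | zero => simp
    | succ j ih => rw [pow_succ', End.mul_apply, ih, map_smul, hw1, smul_smul, pow_succ]
  refine ⟨c, ?_, ?_, ?_⟩
  · rintro rfl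
    have h1 : B (w : W) = 0 := w.2
    have key2 : ∀ u : W, B u = ∑ j ∈ Finset.range l, (A ^ j) u := fun u => by
      rw [hB, LinearMap.sum_apply]
    rw [key2] at h1
    simp_rw [hpow] at h1
    simp only [one_pow, one_smul, Finset.sum_const, Finset.card_range] at h1
    have h2 : (l : ℂ) • (w : W) = 0 := by rw [← h1]; exact Nat.cast_smul_eq_nsmul ℂ l (w : W)
    rcases smul_eq_zero.1 h2 with h3 | h3
    · exact hl.ne' (by exact_mod_cast h3)
    · exact hw0 h3
  · have h1 := hpow l
    rw [hA, End.one_apply] at h1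
    have h2 : (c ^ l - 1) • (w : W) = 0 := by rw [sub_smul, one_smul, ← h1, sub_self]
    rcases smul_eq_zero.1 h2 with h3 | h3
    · exact sub_eq_zero.1 h3
    · exact absurd h3 hw0
  · exact End.hasEigenvalue_of_hasEigenvector (x := (w : W)) ⟨End.mem_eigenspace_iff.2 hw1, hw0⟩

/-- the degree is at least logarithmic -/
theorem one_of_conj {G : Type} [Group G] {W : Type} [AddCommGroup W] [Module ℂ W]
    [FiniteDimensional ℂ W] (ρ : Representation ℂ G W) {l : ℕ} (hl : l.Prime)
    (hlow : 16 ^ finrank ℂ W < l) {s t : G} (hs : s ^ l = 1) (ht : t * s * t⁻¹ = s ^ 16) :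
    ρ s = 1 := by
  by_contra hne
  have hA : (ρ s : End ℂ W) ^ l = 1 := by rw [← map_pow, hs, map_one]
  obtain ⟨c, hc1, hcl, hc⟩ := exists_eigen hl.pos hA hne
  have hstep : ∀ a : ℂ, End.HasEigenvalue (ρ s) a → End.HasEigenvalue (ρ s) (a ^ 16) := by
    intro a ha
    obtain ⟨w, hw⟩ := ha.exists_hasEigenvector
    have h1 : (ρ (s ^ 16)) w = a ^ 16 • w := by
      rw [map_pow]
      have : ∀ n : ℕ, ((ρ s : End ℂ W) ^ n) w = a ^ n • w := by
        intro n
        induction n with
        | zero => simp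
        | succ n ih =>
          rw [pow_succ', End.mul_apply, ih, map_smul, hw.apply_eq_smul, smul_smul, pow_succ]
      exact this 16
    rw [← ht, map_mul, map_mul] at h1
    have h2 : ρ s (ρ t⁻¹ w) = a ^ 16 • ρ t⁻¹ w := by
      have h3 := congrArg (ρ t⁻¹) h1
      rw [map_smul] at h3
      rw [← h3]
      change ρ s (ρ t⁻¹ w) = (ρ t⁻¹ * (ρ t * ρ s * ρ t⁻¹)) w
      rw [← mul_assoc, ← mul_assoc, ← map_mul, inv_mul_cancel, map_one, one_mul]
      rfl
    refine End.hasEigenvalue_of_hasEigenvector (x := ρ t⁻¹ w) ⟨End.mem_eigenspace_iff.2 h2, ?_⟩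
    intro h0
    apply hw.2
    have : ρ t (ρ t⁻¹ w) = w := by
      change (ρ t * ρ t⁻¹) w = w
      rw [← map_mul, mul_inv_cancel, map_one]; rfl
    rw [← this, h0, map_zero]
  have hall : ∀ n : ℕ, End.HasEigenvalue (ρ s) (c ^ 16 ^ n) := by
    intro n
    induction n with
    | zero => simpa using hc
    | succ n ih =>
      have := hstep _ ih
      rwa [← pow_mul, ← pow_succ] at this
  have hord : orderOf c = l := by
    have h1 := orderOf_dvd_of_pow_eq_one hcl
    rcases (Nat.dvd_prime hl).1 h1 with h2 | h2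
    · exact absurd (orderOf_eq_one_iff.1 h2) hc1
    · exact h2
  set d := finrank ℂ W with hd
  have hinj : Function.Injective (fun i : Fin (d + 1) => c ^ 16 ^ (i : ℕ)) := by
    intro i j hij
    simp only at hij
    have hb : ∀ i : Fin (d + 1), 16 ^ (i : ℕ) < orderOf c := by
      intro i
      rw [hord]
      exact (Nat.pow_le_pow_right (by norm_num) (Nat.lt_succ_iff.1 i.isLt)).trans_lt hlow
    have h1 := pow_injOn_Iio_orderOf (hb i) (hb j) hij
    exact Fin.ext (Nat.pow_right_injective (by norm_num : 2 ≤ 16) h1)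
  choose v hv using fun i : Fin (d + 1) => (hall i).exists_hasEigenvector
  have hli := End.eigenvectors_linearIndependent' (ρ s) _ hinj v hv
  have h3 := hli.fintype_card_le_finrank
  rw [Fintype.card_fin] at h3
  omega

end Pool.Agent.N729.EX
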