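import Pool.Agent.N729.EX.Rep

set_option autoImplicit false
set_option linter.unusedSectionVars false

/-!
# Expanders: representations of the semidirect products
-/

namespace Pool.Agent.N729.EX

open Module

namespace Aff

variable {V H : Type} [AddCommGroup V] [Group H] [DistribMulAction H V]

/-- the complement -/
def inl : H →* Aff V H where
  toFun h := ⟨0, h⟩
  map_one' := rfl
  map_mul' a b := by ext <;> simp

@[simp] theorem inl_v (h : H) : (inl h : Aff V H).v = 0 := rfl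
@[simp] theorem inl_h (h : H) : (inl h : Aff V H).h = h := rfl

/-- the translations -/
def tn (v : V) : Aff V H := ⟨v, 1⟩

@[simp] theorem tn_v (v : V) : (tn v : Aff V H).v = v := rfl
@[simp] theorem tn_h (v : V) : (tn v : Aff V H).h = 1 := rfl

theorem tn_add (a b : V) : (tn (a + b) : Aff V H) = tn a * tn b := by ext <;> simp

theorem tn_zero : (tn 0 : Aff V H) = 1 := rfl

theorem inl_tn (h : H) (v : V) : (inl h * tn v : Aff V H) = tn (h • v) * inl h := by ext <;> simp

theorem eq_mul (g : Aff V H) : g = tn g.v * inl g.h := by ext <;> simp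

variable [Fintype V] {W : Type} [AddCommGroup W] [Module ℂ W] (ρ : Representation ℂ (Aff V H) W)

/-- the projection to the vectors with a given character -/
noncomputable def Pr (ψ : AddChar V ℂ) : End ℂ W :=
  (Fintype.card V : ℂ)⁻¹ • ∑ v : V, ψ (-v) • ρ (tn v)

theorem Pr_left (ψ : AddChar V ℂ) (w : V) : ρ (tn w) * Pr ρ ψ = ψ w • Pr ρ ψ := by
  rw [Pr, mul_smul_comm, smul_comm]
  congr 1
  rw [Finset.mul_sum, Finset.smul_sum]
  refine Fintype.sum_equiv (Equiv.addLeft w) _ _ fun v => ?_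
  change ρ (tn w) * (ψ (-v) • ρ (tn v)) = ψ w • (ψ (-(w + v)) • ρ (tn (w + v)))
  rw [mul_smul_comm, ← map_mul, ← tn_add, smul_smul, ← AddChar.map_add_eq_mul]
  congr 2
  abel

theorem Pr_sum : ∑ ψ : AddChar V ℂ, Pr ρ ψ = 1 := by
  classical
  have hc : (Fintype.card V : ℂ) ≠ 0 := by exact_mod_cast Fintype.card_ne_zero
  simp_rw [Pr]
  rw [← Finset.smul_sum, Finset.sum_comm]
  have : ∀ v : V, ∑ ψ : AddChar V ℂ, ψ (-v) • ρ (tn v) =
      if v = 0 then (Fintype.card V : ℂ) • (1 : End ℂ W) else 0 := by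
    intro v
    rw [← Finset.sum_smul, AddChar.sum_apply_eq_ite]
    by_cases hv : v = 0
    · subst hv
      rw [neg_zero, if_pos rfl, if_pos rfl, tn_zero, map_one]
    · rw [if_neg (neg_ne_zero.2 hv), if_neg hv, zero_smul]
  simp_rw [this]
  rw [Finset.sum_ite_eq' Finset.univ (0 : V) (fun _ => _), if_pos (Finset.mem_univ _), smul_smul,
    inv_mul_cancel₀ hc, one_smul]

theorem Pr_app {χ χ' : AddChar V ℂ} {u : W} (hu : ∀ v, ρ (tn v) u = χ' v • u) [Decidable (χ = χ')] :
    Pr ρ χ u = if χ = χ' then u else 0 := by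
  classical
  have hc : (Fintype.card V : ℂ) ≠ 0 := by exact_mod_cast Fintype.card_ne_zero
  have h1 : Pr ρ χ u = ((Fintype.card V : ℂ)⁻¹ * ∑ v : V, (χ' - χ) v) • u := by
    rw [Pr, LinearMap.smul_apply, LinearMap.sum_apply, mul_smul, Finset.sum_smul]
    congr 1
    refine Finset.sum_congr rfl fun v _ => ?_
    rw [LinearMap.smul_apply, hu, smul_smul, AddChar.sub_apply', mul_comm,
      AddChar.map_neg_eq_inv, div_eq_mul_inv]
  rw [h1, AddChar.sum_eq_ite]
  by_cases h : χ = χ'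
  · subst h
    rw [if_pos (sub_self _), if_pos rfl, inv_mul_cancel₀ hc, one_smul]
  · rw [if_neg (sub_ne_zero.2 (Ne.symm h)), if_neg h, mul_zero, zero_smul]

/-- the stabilizer of a character -/
def Kst (ψ : AddChar V ℂ) : Subgroup H where
  carrier := {h | ∀ v : V, ψ (h • v) = ψ v}
  mul_mem' := by
    intro a b ha hb v
    rw [mul_smul, ha, hb]
  one_mem' := fun v => by rw [one_smul]
  inv_mem' := by
    intro a ha v
    rw [← ha (a⁻¹ • v), smul_inv_smul]

theorem trans_trivial [FiniteDimensional ℂ W] [Finite H] {N : ℕ}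
    (hN : ∀ ψ : AddChar V ℂ, ψ ≠ 0 → N ≤ (Kst (H := H) ψ).index) (hW : finrank ℂ W < N) (v : V) :
    ρ (tn v) = 1 := by
  classical
  by_contra hv
  obtain ⟨ψ, hψ, hP⟩ : ∃ ψ : AddChar V ℂ, ψ ≠ 0 ∧ Pr ρ ψ ≠ 0 := by
    by_contra hno
    push Not at hno
    apply hv
    have h1 : Pr ρ 0 = 1 := by
      rw [← Pr_sum ρ]
      exact (Finset.sum_eq_single 0 (fun ψ _ hψ => hno ψ hψ) (by simp)).symm
    have h2 := Pr_left ρ 0 v
    rw [h1, mul_one] at h2
    rw [h2]
    simp
  obtain ⟨w₀, hw₀⟩ : ∃ w, Pr ρ ψ w ≠ 0 := by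
    by_contra hno
    push Not at hno
    exact hP (LinearMap.ext hno)
  set u : W := Pr ρ ψ w₀ with hu
  have hu1 : ∀ v, ρ (tn v) u = ψ v • u := by
    intro v
    rw [hu, ← End.mul_apply, Pr_left]
    rfl
  -- the conjugates
  have hconj : ∀ (h : H) (v : V), ρ (tn v) (ρ (inl h) u) = ψ (h⁻¹ • v) • ρ (inl h) u := by
    intro h v
    have e : (tn v * inl h : Aff V H) = inl h * tn (h⁻¹ • v) := by
      rw [inl_tn, smul_inv_smul]
    rw [← End.mul_apply, ← map_mul, e, map_mul, End.mul_apply, hu1, map_smul]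
  have hne : ∀ h : H, ρ (inl h) u ≠ 0 := by
    intro h h0
    apply hw₀
    have : ρ (inl h⁻¹) (ρ (inl h) u) = u := by
      rw [← End.mul_apply, ← map_mul, ← map_mul, inv_mul_cancel, map_one, map_one]; rfl
    rw [← this, h0, map_zero]
  let χ : H → AddChar V ℂ := fun h =>
    { toFun := fun v => ψ (h⁻¹ • v)
      map_zero_eq_one' := by simp
      map_add_eq_mul' := fun a b => by rw [smul_add, AddChar.map_add_eq_mul] }
  have hχ : ∀ h v, χ h v = ψ (h⁻¹ • v) := fun _ _ => rfl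
  have hχinj : ∀ q q' : H ⧸ Kst (H := H) ψ, χ q.out = χ q'.out → q = q' := by
    intro q q' h
    have h1 : (q'.out)⁻¹ * q.out ∈ Kst (H := H) ψ := by
      intro v
      have h2 : χ q.out (q.out • v) = χ q'.out (q.out • v) := by rw [h]
      rw [hχ, hχ, inv_smul_smul, ← mul_smul] at h2
      exact h2.symm
    have h3 := QuotientGroup.eq.2 h1
    rw [QuotientGroup.out_eq', QuotientGroup.out_eq'] at h3
    exact h3.symm
  cases nonempty_fintype (H ⧸ Kst (H := H) ψ)
  have hli : LinearIndependent ℂ (fun q : H ⧸ Kst (H := H) ψ => ρ (inl q.out) u) := by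
    rw [Fintype.linearIndependent_iff]
    intro c hc q
    have h1 := congrArg (Pr ρ (χ q.out)) hc
    rw [map_zero, map_sum] at h1
    have h2 : ∀ q', Pr ρ (χ q.out) (c q' • ρ (inl q'.out) u) =
        if q' = q then c q • ρ (inl q.out) u else 0 := by
      intro q'
      rw [map_smul, Pr_app ρ (χ' := χ q'.out) (hconj q'.out)]
      by_cases hq : q' = q
      · subst hq
        rw [if_pos rfl, if_pos rfl]
      · rw [if_neg (fun h => hq (hχinj q q' h).symm), if_neg hq, smul_zero]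
    simp_rw [h2] at h1
    rw [Finset.sum_ite_eq' Finset.univ q (fun _ => _), if_pos (Finset.mem_univ _)] at h1
    exact (smul_eq_zero.1 h1).resolve_right (hne _)
  have h4 := hli.fintype_card_le_finrank
  have h5 := hN ψ hψ
  rw [Subgroup.index, Nat.card_eq_fintype_card] at h5
  omega

end Aff

/-! ### The groups -/

variable {l : ℕ} {R : Type} [CommRing R] [Fact l.Prime] [Good l R]

/-- the group -/
abbrev GG (l : ℕ) (R : Type) [CommRing R] [Fact l.Prime] [Good l R] : Type := Aff (Fn l R) (WH l R)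

theorem NC_Kst [Nontrivial R] (ψ : AddChar (Fn l R) ℂ) (hψ : ψ ≠ 0) :
    NC (Aff.Kst (H := WH l R) ψ) := by
  intro t ht
  by_contra ht0
  apply hψ
  obtain ⟨c, hc⟩ := isUnit_sub (R := R) ht0
  ext v
  have h1 := ht ((↑c⁻¹ : R) • v)
  have e1 : (eH t 0 0 : WH l R) • ((↑c⁻¹ : R) • v) = v + (↑c⁻¹ : R) • v := by
    funext x
    rw [smul_app]
    change (hE t 0 0 : Fn l R ≃ₗ[R] Fn l R) ((↑c⁻¹ : R) • v) x = _
    rw [hE_app, zero_mul, add_zero, add_zero, Pi.add_apply, Pi.smul_apply, smul_eq_mul]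
    have h2 : (e t : R) = ↑c + 1 := by rw [hc]; ring
    rw [h2]
    have h3 : (↑c : R) * ↑c⁻¹ = 1 := c.mul_inv
    linear_combination (v x) * h3
  rw [e1, AddChar.map_add_eq_mul] at h1
  have h4 : ψ ((↑c⁻¹ : R) • v) ≠ 0 := (AddChar.val_isUnit ψ _).ne_zero
  simpa using mul_right_cancel₀ h4 (h1.trans (one_mul _).symm)

variable {W : Type} [AddCommGroup W] [Module ℂ W] [FiniteDimensional ℂ W]

/-- representations of small degree are trivial on the translations -/
theorem tn_trivial [Nontrivial R] [Finite R] (ρ : Representation ℂ (GG l R) W)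
    (hW : finrank ℂ W < l ^ 2) (v : Fn l R) : ρ (Aff.tn v) = 1 := by
  cases nonempty_fintype (Fn l R)
  exact Aff.trans_trivial ρ (fun ψ hψ => index_ge_sq (NC_Kst ψ hψ)) hW v

/-- representations of very small degree are trivial -/
theorem all_trivial [Nontrivial R] (ρ : Representation ℂ (GG l R) W)
    (hW : 16 ^ finrank ℂ W < l) (g : GG l R) : ρ g = 1 := by
  have h1 : ρ.comp Aff.inl = 1 := by
    refine MonoidHom.eq_of_eqOn_dense (closure_genH (l := l) (R := R)) fun s hs => ?_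
    obtain ⟨t, ht⟩ := genH_conj hs
    refine one_of_conj ρ (Fact.out : l.Prime) hW (s := Aff.inl s) (t := Aff.inl t) ?_ ?_
    · rw [← map_pow, genH_pow hs, map_one]
    · rw [← map_inv, ← map_mul, ← map_mul, ht, map_pow]
  have h2 : ∀ h : WH l R, ρ (Aff.inl h) = 1 := fun h => DFunLike.congr_fun h1 h
  have h3 : ∀ v : Fn l R, ρ (Aff.tn v) = 1 := by
    intro v
    obtain ⟨c, hc⟩ := isUnit_sub (R := R) (one_ne_zero : (1 : ZMod l) ≠ 0)
    set w : Fn l R := (↑c⁻¹ : R) • v with hw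
    have e1 : (eH 1 0 0 : WH l R) • w = v + w := by
      funext x
      rw [smul_app]
      change (hE 1 0 0 : Fn l R ≃ₗ[R] Fn l R) w x = _
      rw [hE_app, zero_mul, add_zero, add_zero, Pi.add_apply, hw, Pi.smul_apply, smul_eq_mul]
      have h2 : (e (1 : ZMod l) : R) = ↑c + 1 := by rw [hc]; ring
      rw [h2]
      have h3 : (↑c : R) * ↑c⁻¹ = 1 := c.mul_inv
      linear_combination (v x) * h3
    have e2 : (Aff.inl (eH 1 0 0) * Aff.tn w : GG l R) = Aff.tn v * Aff.tn w * Aff.inl (eH 1 0 0) := by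
      rw [Aff.inl_tn, e1, Aff.tn_add]
    have e3 := congrArg ρ e2
    rw [map_mul, map_mul, map_mul, h2, one_mul, mul_one] at e3
    have e4 : ρ (Aff.tn w) * ρ (Aff.tn (-w)) = 1 := by
      rw [← map_mul, ← Aff.tn_add, add_neg_cancel, Aff.tn_zero, map_one]
    calc ρ (Aff.tn v) = ρ (Aff.tn v) * (ρ (Aff.tn w) * ρ (Aff.tn (-w))) := by rw [e4, mul_one]
      _ = (ρ (Aff.tn v) * ρ (Aff.tn w)) * ρ (Aff.tn (-w)) := by rw [mul_assoc]
      _ = 1 := by rw [← e3, e4]
  rw [Aff.eq_mul g, map_mul, h3, h2, one_mul]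

end Pool.Agent.N729.EX
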