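import Mathlib

set_option autoImplicit false

/-!
# Expanders, first part: additive characters with values in a ring, Gauss sums
-/

namespace Pool.Agent.N729.EX

open Finset

/-- a ring with a nontrivial additive character of `ZMod l`, in which `l` is invertible -/
class Good (l : ℕ) (R : Type) [CommRing R] [Fact l.Prime] where
  e : AddChar (ZMod l) R
  sum : ∑ t, e t = 0
  li : R
  li_mul : li * (l : R) = 1
  big : 7 ≤ l

variable {l : ℕ} {R : Type} [CommRing R] [Fact l.Prime] [Good l R]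

/-- the character -/
def e (t : ZMod l) : R := Good.e t

/-- the inverse of `l` -/
def li (l : ℕ) (R : Type) [CommRing R] [Fact l.Prime] [Good l R] : R := Good.li l

theorem big (l : ℕ) (R : Type) [CommRing R] [Fact l.Prime] [Good l R] : 7 ≤ l := Good.big (l := l) (R := R)

theorem e_zero : (e (0 : ZMod l) : R) = 1 := AddChar.map_zero_eq_one _

theorem e_add (s t : ZMod l) : (e (s + t) : R) = e s * e t := AddChar.map_add_eq_mul _ _ _

theorem e_neg_mul (t : ZMod l) : (e (-t) : R) * e t = 1 := by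
  rw [← e_add, neg_add_cancel, e_zero]

theorem e_mul_neg (t : ZMod l) : (e t : R) * e (-t) = 1 := by
  rw [← e_add, add_neg_cancel, e_zero]

theorem li_mul : li l R * (l : R) = 1 := Good.li_mul

theorem e_sum : ∑ t : ZMod l, (e t : R) = 0 := Good.sum

theorem e_sum_mul (s : ZMod l) : ∑ t : ZMod l, (e (s * t) : R) = if s = 0 then (l : R) else 0 := by
  split_ifs with h
  · subst h
    simp [e_zero, ZMod.card]
  · rw [← e_sum (l := l) (R := R)]
    exact Fintype.sum_equiv (Equiv.mulLeft₀ s h) _ _ fun t => rfl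

theorem e_mul_val (s t : ZMod l) : (e (s * t) : R) = e s ^ t.val := by
  have h : s * t = t.val • s := by
    rw [nsmul_eq_mul, ZMod.natCast_zmod_val, mul_comm]
  rw [h]
  exact AddChar.map_nsmul_eq_pow _ _ _

theorem isUnit_l : IsUnit (l : R) := IsUnit.of_mul_eq_one_right _ (li_mul (l := l) (R := R))

theorem isUnit_li : IsUnit (li l R) := IsUnit.of_mul_eq_one _ (li_mul (l := l) (R := R))

theorem isUnit_sub {s : ZMod l} (hs : s ≠ 0) : IsUnit ((e s : R) - 1) := by
  have h : ∑ t : ZMod l, ((e (s * t) : R) - 1) = -(l : R) := by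
    rw [sum_sub_distrib, e_sum_mul, if_neg hs]
    simp [ZMod.card]
  have h2 : (e s : R) - 1 ∣ -(l : R) := by
    rw [← h]
    refine dvd_sum fun t _ => ?_
    rw [e_mul_val]
    simpa using sub_dvd_pow_sub_pow (e s : R) 1 t.val
  exact isUnit_of_dvd_unit h2 isUnit_l.neg

theorem e_eq_one [Nontrivial R] {s : ZMod l} (h : (e s : R) = 1) : s = 0 := by
  by_contra hs
  have := isUnit_sub (R := R) hs
  rw [h, sub_self] at this
  exact not_isUnit_zero this

theorem two_ne (l : ℕ) (R : Type) [CommRing R] [Fact l.Prime] [Good l R] : (2 : ZMod l) ≠ 0 := by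
  have h := big l R
  intro h2
  have : ((2 : ℕ) : ZMod l) = 0 := by exact_mod_cast h2
  rw [ZMod.natCast_eq_zero_iff] at this
  have := Nat.le_of_dvd (by norm_num) this
  omega

theorem four_ne (l : ℕ) (R : Type) [CommRing R] [Fact l.Prime] [Good l R] : (4 : ZMod l) ≠ 0 := by
  have h := two_ne l R
  have : (4 : ZMod l) = 2 * 2 := by norm_num
  rw [this]
  exact mul_ne_zero h h

/-! ### Gauss sums -/

/-- Gauss sums -/
def gs (l : ℕ) (R : Type) [CommRing R] [Fact l.Prime] [Good l R] (A : ZMod l) : R :=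
  ∑ x : ZMod l, e (A * x ^ 2)

theorem gs_sq (A : ZMod l) {c : ZMod l} (hc : c ≠ 0) : gs l R (A * c ^ 2) = gs l R A := by
  rw [gs, gs]
  refine Fintype.sum_equiv (Equiv.mulLeft₀ c hc) _ _ fun x => ?_
  change e (A * c ^ 2 * x ^ 2) = e (A * (c * x) ^ 2)
  congr 1
  ring

/-- quadratic exponential sums -/
theorem quad_sum {A : ZMod l} (hA : A ≠ 0) (B : ZMod l) :
    ∑ x : ZMod l, (e (A * x ^ 2 + B * x) : R) = e (-(B ^ 2 / (4 * A))) * gs l R A := by
  have h2 := two_ne l R
  have h4 := four_ne l R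
  rw [gs, mul_sum]
  refine Fintype.sum_equiv (Equiv.addRight (B / (2 * A))) _ _ fun x => ?_
  change e (A * x ^ 2 + B * x) = e (-(B ^ 2 / (4 * A))) * e (A * (x + B / (2 * A)) ^ 2)
  rw [← e_add]
  congr 1
  field_simp
  ring

theorem sum_sq_eq (f : ZMod l → R) :
    ∑ x : ZMod l, f (x ^ 2) = ∑ y : ZMod l, ((quadraticChar (ZMod l) y + 1 : ℤ) : R) * f y := by
  have h1 : ∑ x : ZMod l, f (x ^ 2) =
      ∑ y : ZMod l, ∑ x ∈ univ.filter (fun x : ZMod l => x ^ 2 = y), f (x ^ 2) := by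
    rw [sum_fiberwise]
  rw [h1]
  refine sum_congr rfl fun y _ => ?_
  have h2 : ringChar (ZMod l) ≠ 2 := by
    rw [ZMod.ringChar_zmod_n]
    have := big l R
    omega
  have h3 := quadraticChar_card_sqrts h2 y
  have h4 : ∑ x ∈ univ.filter (fun x : ZMod l => x ^ 2 = y), f (x ^ 2) =
      ∑ x ∈ univ.filter (fun x : ZMod l => x ^ 2 = y), f y := by
    refine sum_congr rfl fun x hx => ?_
    rw [(mem_filter.1 hx).2]
  rw [h4, sum_const, nsmul_eq_mul]
  congr 1
  have h5 : ({x : ZMod l | x ^ 2 = y} : Set (ZMod l)).toFinset =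
      univ.filter (fun x : ZMod l => x ^ 2 = y) := by
    ext x; simp
  rw [h5] at h3
  rw [← h3]
  simp

theorem gs_eq (A : ZMod l) (hA : A ≠ 0) :
    gs l R A = ((quadraticChar (ZMod l) A : ℤ) : R) *
      ∑ y : ZMod l, ((quadraticChar (ZMod l) y : ℤ) : R) * e y := by
  have h1 : gs l R A = ∑ y : ZMod l, ((quadraticChar (ZMod l) y + 1 : ℤ) : R) * e (A * y) := by
    rw [gs]
    exact sum_sq_eq (fun x => (e (A * x) : R))
  have h2 : ∑ y : ZMod l, ((quadraticChar (ZMod l) y + 1 : ℤ) : R) * e (A * y) =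
      ∑ y : ZMod l, ((quadraticChar (ZMod l) y : ℤ) : R) * e (A * y) := by
    have : ∀ y : ZMod l, ((quadraticChar (ZMod l) y + 1 : ℤ) : R) * e (A * y) =
        ((quadraticChar (ZMod l) y : ℤ) : R) * e (A * y) + e (A * y) := by
      intro y; push_cast; ring
    simp_rw [this]
    rw [sum_add_distrib, e_sum_mul, if_neg hA, add_zero]
  rw [h1, h2, mul_sum]
  refine Fintype.sum_equiv (Equiv.mulLeft₀ A hA) _ _ fun y => ?_
  change _ = ((quadraticChar (ZMod l) A : ℤ) : R) * (((quadraticChar (ZMod l) (A * y) : ℤ) : R) *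
    e (A * y))
  rw [← mul_assoc]
  congr 1
  rw [map_mul]
  push_cast
  have h3 : (quadraticChar (ZMod l) A) ^ 2 = 1 := quadraticChar_sq_one hA
  have h4 : (((quadraticChar (ZMod l) A : ℤ) : R)) * ((quadraticChar (ZMod l) A : ℤ) : R) = 1 := by
    rw [← Int.cast_mul, ← sq, h3, Int.cast_one]
  rw [← mul_assoc, h4, one_mul]

theorem gs_pm {A B : ZMod l} (hA : A ≠ 0) (hB : B ≠ 0) :
    gs l R A = gs l R B ∨ gs l R A = -gs l R B := by
  rw [gs_eq A hA, gs_eq B hB]
  rcases quadraticChar_dichotomy hA with h1 | h1 <;> rcases quadraticChar_dichotomy hB with h2 | h2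
    <;> rw [h1, h2] <;> simp

theorem gs_mul_neg : gs l R 1 * gs l R (-1) = (l : R) := by
  have h2 := two_ne l R
  have h1 : gs l R 1 * gs l R (-1) =
      ∑ x : ZMod l, ∑ y : ZMod l, (e (x ^ 2 - y ^ 2) : R) := by
    rw [gs, gs, sum_mul_sum]
    refine sum_congr rfl fun x _ => sum_congr rfl fun y _ => ?_
    rw [← e_add]
    congr 1
    ring
  have h3 : ∑ x : ZMod l, ∑ y : ZMod l, (e (x ^ 2 - y ^ 2) : R) =
      ∑ y : ZMod l, ∑ u : ZMod l, (e (u ^ 2 + 2 * u * y) : R) := by
    rw [sum_comm]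
    refine sum_congr rfl fun y _ => ?_
    refine Fintype.sum_equiv (Equiv.subRight y) _ _ fun x => ?_
    change e (x ^ 2 - y ^ 2) = e ((x - y) ^ 2 + 2 * (x - y) * y)
    congr 1
    ring
  rw [h1, h3, sum_comm]
  have h4 : ∀ u : ZMod l, ∑ y : ZMod l, (e (u ^ 2 + 2 * u * y) : R) =
      if u = 0 then (l : R) else 0 := by
    intro u
    simp_rw [e_add]
    rw [← mul_sum, e_sum_mul]
    by_cases hu : u = 0
    · subst hu; simp [e_zero]
    · rw [if_neg (mul_ne_zero h2 hu), if_neg hu, mul_zero]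
  simp_rw [h4]
  simp

theorem gs_mul {A : ZMod l} (hA : A ≠ 0) :
    gs l R 1 * gs l R A = (l : R) ∨ gs l R 1 * gs l R A = -(l : R) := by
  have h1 : (-1 : ZMod l) ≠ 0 := neg_ne_zero.2 one_ne_zero
  rcases gs_pm (R := R) hA h1 with h | h
  · left; rw [h, gs_mul_neg]
  · right; rw [h, mul_neg, gs_mul_neg]

end Pool.Agent.N729.EX
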