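import Pool.Agent.N729.EX.Grp

set_option autoImplicit false
set_option linter.unusedSectionVars false

/-!
# Expanders: the matrix entries of the Weil operators
-/

namespace Pool.Agent.N729.EX

open Finset

variable {l : ℕ} {R : Type} [CommRing R] [Fact l.Prime] [Good l R]

/-- the first row -/
def row (g : Fn l R ≃ₗ[R] Fn l R) : ZMod l → R := fun k => g (Pi.single k 1) 0

theorem ev_eq (g : Fn l R ≃ₗ[R] Fn l R) (f : Fn l R) : g f 0 = ∑ k, row g k * f k := by
  have h : f = ∑ k, f k • (Pi.single k 1 : Fn l R) := by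
    funext x
    simp [Finset.sum_apply, Pi.single_apply]
  conv_lhs => rw [h]
  rw [map_sum, Finset.sum_apply]
  refine sum_congr rfl fun k _ => ?_
  rw [map_smul, Pi.smul_apply, smul_eq_mul, mul_comm]
  rfl

theorem row_mul (g h : Fn l R ≃ₗ[R] Fn l R) (k : ZMod l) :
    row (g * h) k = ∑ x, row g x * h (Pi.single k 1) x := by
  rw [row, mul_app, ev_eq]

/-- a sign -/
def Sgn (ε : R) : Prop := ε = 1 ∨ ε = -1

theorem Sgn.mul {a b : R} (ha : Sgn a) (hb : Sgn b) : Sgn (a * b) := by
  rcases ha with rfl | rfl <;> rcases hb with rfl | rfl <;> simp [Sgn]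

/-- the first type of rows -/
def rM (ε : R) (t j : ZMod l) : ZMod l → R := fun k => if k = j then ε * e t else 0

/-- the second type of rows -/
def rK (ε : R) (a b c : ZMod l) : ZMod l → R :=
  fun k => ε * (li l R * gs l R 1) * e (a * k ^ 2 + b * k + c)

/-- all possible rows -/
def Rws (l : ℕ) (R : Type) [CommRing R] [Fact l.Prime] [Good l R] : Set (ZMod l → R) :=
  {r | (∃ ε t j, Sgn ε ∧ r = rM ε t j) ∨ ∃ ε a b c, Sgn ε ∧ r = rK ε a b c}

theorem row_one : row (1 : Fn l R ≃ₗ[R] Fn l R) ∈ Rws l R := by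
  refine Or.inl ⟨1, 0, 0, Or.inl rfl, ?_⟩
  funext k
  change (Pi.single k 1 : Fn l R) 0 = rM 1 0 0 k
  rw [rM, e_zero, mul_one, Pi.single_apply]
  simp only [eq_comm]

theorem row_hE (g : Fn l R ≃ₗ[R] Fn l R) (t i j k : ZMod l) :
    row (g * hE t i j) k = row g (k - i) * e (t + j * (k - i)) := by
  rw [row_mul]
  have : ∀ x : ZMod l, row g x * (hE t i j : Fn l R ≃ₗ[R] Fn l R) (Pi.single k 1) x =
      if x = k - i then row g (k - i) * e (t + j * (k - i)) else 0 := by
    intro x
    rw [hE_app, Pi.single_apply]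
    by_cases hx : x = k - i
    · subst hx; simp
    · rw [if_neg hx, if_neg, mul_zero, mul_zero]
      intro h; apply hx; rw [← h]; ring
  simp_rw [this]
  simp

theorem row_Qu (g : Fn l R ≃ₗ[R] Fn l R) (α k : ZMod l) :
    row (g * Qu α) k = row g k * e (α * k ^ 2) := by
  rw [row_mul]
  have : ∀ x : ZMod l, row g x * (Qu α : Fn l R ≃ₗ[R] Fn l R) (Pi.single k 1) x =
      if x = k then row g k * e (α * k ^ 2) else 0 := by
    intro x
    rw [Qu, Dg_app, Pi.single_apply]
    by_cases hx : x = k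
    · subst hx; simp
    · rw [if_neg hx, if_neg hx, mul_zero, mul_zero]
  simp_rw [this]
  simp

theorem row_Qp (g : Fn l R ≃ₗ[R] Fn l R) {β : ZMod l} (hβ : β ≠ 0) (k : ZMod l) :
    row (g * Qp β) k = ∑ x, row g x * (li l R * gs l R β * e (-((x - k) ^ 2 / (4 * β)))) := by
  rw [row_mul]
  refine sum_congr rfl fun x _ => ?_
  rw [Qp_app hβ]
  congr 2
  have : ∀ y : ZMod l, e (-((x - y) ^ 2 / (4 * β))) * (Pi.single k 1 : Fn l R) y =
      if y = k then (e (-((x - k) ^ 2 / (4 * β))) : R) else 0 := by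
    intro y
    rw [Pi.single_apply]
    by_cases hy : y = k
    · subst hy; simp
    · rw [if_neg hy, if_neg hy, mul_zero]
  simp_rw [this]
  simp

theorem gs_sgn {β : ZMod l} (hβ : β ≠ 0) : ∃ ε : R, Sgn ε ∧ gs l R β = ε * gs l R 1 := by
  rcases gs_pm (R := R) hβ one_ne_zero with h | h
  · exact ⟨1, Or.inl rfl, by rw [h, one_mul]⟩
  · exact ⟨-1, Or.inr rfl, by rw [h, neg_one_mul]⟩

theorem gs_sgn2 {β : ZMod l} (hβ : β ≠ 0) : ∃ ε : R, Sgn ε ∧ gs l R β * gs l R 1 = ε * l := by
  rcases gs_mul (R := R) hβ with h | h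
  · exact ⟨1, Or.inl rfl, by rw [mul_comm, h, one_mul]⟩
  · exact ⟨-1, Or.inr rfl, by rw [mul_comm, h, neg_one_mul]⟩

theorem row_step {g : Fn l R ≃ₗ[R] Fn l R} (hg : row g ∈ Rws l R) {h : Fn l R ≃ₗ[R] Fn l R}
    (hh : (∃ t i j, h = hE t i j) ∨ (∃ α, h = Qu α) ∨ ∃ β, β ≠ 0 ∧ h = Qp β) :
    row (g * h) ∈ Rws l R := by
  have h2 := two_ne l R
  have h4 := four_ne l R
  have hli := li_mul (l := l) (R := R)
  rcases hh with ⟨t', i, j', rfl⟩ | ⟨α, rfl⟩ | ⟨β, hβ, rfl⟩
  · rcases hg with ⟨ε, t, j, hε, hr⟩ | ⟨ε, a, b, c, hε, hr⟩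
    · refine Or.inl ⟨ε, t + (t' + j' * j), j + i, hε, ?_⟩
      funext k
      rw [row_hE, hr, rM, rM]
      by_cases hk : k = j + i
      · subst hk
        rw [if_pos (by ring), if_pos rfl, mul_assoc, ← e_add]
        congr 2
        ring
      · rw [if_neg hk, if_neg, zero_mul]
        intro h; apply hk; rw [← h]; ring
    · refine Or.inr ⟨ε, a, b - 2 * a * i + j', a * i ^ 2 - b * i + c + t' - j' * i, hε, ?_⟩
      funext k
      rw [row_hE, hr, rK, rK, mul_assoc, ← e_add]
      congr 2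
      ring
  · rcases hg with ⟨ε, t, j, hε, hr⟩ | ⟨ε, a, b, c, hε, hr⟩
    · refine Or.inl ⟨ε, t + α * j ^ 2, j, hε, ?_⟩
      funext k
      rw [row_Qu, hr, rM, rM]
      by_cases hk : k = j
      · subst hk
        rw [if_pos rfl, if_pos rfl, mul_assoc, ← e_add]
      · rw [if_neg hk, if_neg hk, zero_mul]
    · refine Or.inr ⟨ε, a + α, b, c, hε, ?_⟩
      funext k
      rw [row_Qu, hr, rK, rK, mul_assoc, ← e_add]
      congr 2
      ring
  · have h4β : 4 * β ≠ 0 := mul_ne_zero h4 hβ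
    obtain ⟨ε₁, hε₁, hgs⟩ := gs_sgn (R := R) hβ
    rcases hg with ⟨ε, t, j, hε, hr⟩ | ⟨ε, a, b, c, hε, hr⟩
    · refine Or.inr ⟨ε * ε₁, -(1 / (4 * β)), 2 * j / (4 * β), t - j ^ 2 / (4 * β), hε.mul hε₁, ?_⟩
      funext k
      rw [row_Qp g hβ, hr, rK]
      have : ∀ x : ZMod l, rM ε t j x * (li l R * gs l R β * e (-((x - k) ^ 2 / (4 * β)))) =
          if x = j then ε * e t * (li l R * gs l R β * e (-((j - k) ^ 2 / (4 * β)))) else 0 := by
        intro x
        rw [rM]
        by_cases hx : x = j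
        · subst hx; simp
        · rw [if_neg hx, if_neg hx, zero_mul]
      simp_rw [this]
      rw [sum_ite_eq' univ j (fun _ => _), if_pos (mem_univ _), hgs]
      have e1 : -(1 / (4 * β)) * k ^ 2 + 2 * j / (4 * β) * k + (t - j ^ 2 / (4 * β)) =
          t + -((j - k) ^ 2 / (4 * β)) := by
        field_simp
        ring
      rw [e1, e_add]
      ring
    · -- a quadratic exponential sum
      set q : ZMod l := 1 / (4 * β) with hq
      have hq0 : q ≠ 0 := one_div_ne_zero h4β
      have h1 : ∀ k, row (g * Qp β) k = ε * (li l R * gs l R 1) * (li l R * gs l R β) *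
          e (c - q * k ^ 2) * ∑ x, e ((a - q) * x ^ 2 + (b + 2 * q * k) * x) := by
        intro k
        rw [row_Qp g hβ, hr, mul_sum]
        refine sum_congr rfl fun x _ => ?_
        rw [rK]
        have e1 : (-((x - k) ^ 2 / (4 * β)) : ZMod l) = -(q * (x - k) ^ 2) := by
          rw [hq]; field_simp
        have e2 : (a * x ^ 2 + b * x + c) + -(q * (x - k) ^ 2) =
            (c - q * k ^ 2) + ((a - q) * x ^ 2 + (b + 2 * q * k) * x) := by ring
        rw [e1]
        calc ε * (li l R * gs l R 1) * e (a * x ^ 2 + b * x + c) *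
              (li l R * gs l R β * e (-(q * (x - k) ^ 2)))
            = ε * (li l R * gs l R 1) * (li l R * gs l R β) *
              (e (a * x ^ 2 + b * x + c) * e (-(q * (x - k) ^ 2))) := by ring
          _ = _ := by rw [← e_add, e2, e_add]; ring
      by_cases hA : a - q = 0
      · -- a row of the first type
        have h2q : 2 * q ≠ 0 := mul_ne_zero (two_ne l R) hq0
        obtain ⟨ε₂, hε₂, hgs2⟩ := gs_sgn2 (R := R) hβ
        refine Or.inl ⟨ε * ε₂, c - q * (-(b / (2 * q))) ^ 2, -(b / (2 * q)), hε.mul hε₂, ?_⟩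
        funext k
        rw [h1 k, hA, rM]
        have h3 : ∑ x : ZMod l, (e (0 * x ^ 2 + (b + 2 * q * k) * x) : R) =
            if k = -(b / (2 * q)) then (l : R) else 0 := by
          have : ∀ x : ZMod l, (0 * x ^ 2 + (b + 2 * q * k) * x) = (b + 2 * q * k) * x := by
            intro x; ring
          simp_rw [this]
          rw [e_sum_mul]
          by_cases hk : k = -(b / (2 * q))
          · rw [if_pos hk, if_pos]
            rw [hk]
            field_simp
            try ring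
          · rw [if_neg hk, if_neg]
            intro h
            apply hk
            have h5 : 2 * q * k = -b := by linear_combination h
            rw [← neg_div, eq_div_iff h2q, mul_comm]
            exact h5
        rw [h3]
        by_cases hk : k = -(b / (2 * q))
        · rw [if_pos hk, if_pos hk, ← hk]
          calc ε * (li l R * gs l R 1) * (li l R * gs l R β) * e (c - q * k ^ 2) * (l : R)
              = ε * (gs l R β * gs l R 1) * li l R * (li l R * l) * e (c - q * k ^ 2) := by ring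
            _ = ε * ε₂ * (li l R * l) * e (c - q * k ^ 2) := by
                rw [hgs2]
                linear_combination (ε * ε₂ * (li l R * l) * e (c - q * k ^ 2)) * hli
            _ = _ := by rw [hli, mul_one]
        · rw [if_neg hk, if_neg hk, mul_zero]
      · -- a row of the second type
        have h4A : 4 * (a - q) ≠ 0 := mul_ne_zero h4 hA
        obtain ⟨ε₂, hε₂, hgsA⟩ := gs_sgn (R := R) hA
        obtain ⟨ε₃, hε₃, hgs3⟩ := gs_sgn2 (R := R) hβ
        refine Or.inr ⟨ε * ε₃ * ε₂, -q - (2 * q) ^ 2 / (4 * (a - q)),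
          -(2 * b * (2 * q) / (4 * (a - q))), c - b ^ 2 / (4 * (a - q)), (hε.mul hε₃).mul hε₂, ?_⟩
        funext k
        rw [h1 k, quad_sum hA, rK, hgsA]
        have e3 : (-q - (2 * q) ^ 2 / (4 * (a - q))) * k ^ 2 +
            -(2 * b * (2 * q) / (4 * (a - q))) * k + (c - b ^ 2 / (4 * (a - q))) =
            (c - q * k ^ 2) + -((b + 2 * q * k) ^ 2 / (4 * (a - q))) := by
          field_simp
          ring
        rw [e3, e_add]
        calc ε * (li l R * gs l R 1) * (li l R * gs l R β) * e (c - q * k ^ 2) *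
              (e (-((b + 2 * q * k) ^ 2 / (4 * (a - q)))) * (ε₂ * gs l R 1))
            = ε * (gs l R β * gs l R 1) * li l R * ε₂ * (li l R * gs l R 1) *
              (e (c - q * k ^ 2) * e (-((b + 2 * q * k) ^ 2 / (4 * (a - q))))) := by ring
          _ = ε * ε₃ * (li l R * l) * ε₂ * (li l R * gs l R 1) *
              (e (c - q * k ^ 2) * e (-((b + 2 * q * k) ^ 2 / (4 * (a - q))))) := by
                rw [hgs3]; ring
          _ = _ := by rw [hli]; ring

/-- the rows of all elements of the group -/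
theorem row_mem {g : Fn l R ≃ₗ[R] Fn l R} (hg : g ∈ WH l R) : row g ∈ Rws l R := by
  have h1 : (-1 : ZMod l) ≠ 0 := neg_ne_zero.2 one_ne_zero
  rw [WH] at hg
  induction hg using Subgroup.closure_induction_right with
  | one => exact row_one
  | mul_right x _ y hy hx =>
    refine row_step hx ?_
    simp only [gen, Set.mem_insert_iff, Set.mem_singleton_iff] at hy
    rcases hy with rfl | rfl | rfl | rfl
    · exact Or.inl ⟨_, _, _, rfl⟩
    · exact Or.inl ⟨_, _, _, rfl⟩
    · exact Or.inr (Or.inl ⟨_, rfl⟩)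
    · exact Or.inr (Or.inr ⟨_, one_ne_zero, rfl⟩)
  | mul_inv_cancel x _ y hy hx =>
    refine row_step hx ?_
    simp only [gen, Set.mem_insert_iff, Set.mem_singleton_iff] at hy
    rcases hy with rfl | rfl | rfl | rfl
    · exact Or.inl ⟨_, _, _, hE_inv _ _ _⟩
    · exact Or.inl ⟨_, _, _, hE_inv _ _ _⟩
    · exact Or.inr (Or.inl ⟨_, Qu_inv _⟩)
    · exact Or.inr (Or.inr ⟨_, h1, Qp_inv _⟩)

/-! ### The order of the group -/

/-- parameters of the rows -/
def rpar (l : ℕ) (R : Type) [CommRing R] [Fact l.Prime] [Good l R] :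
    (Bool × ZMod l × ZMod l) ⊕ (Bool × ZMod l × ZMod l × ZMod l) → (ZMod l → R)
  | Sum.inl p => rM (if p.1 then 1 else -1) p.2.1 p.2.2
  | Sum.inr p => rK (if p.1 then 1 else -1) p.2.1 p.2.2.1 p.2.2.2

theorem Rws_sub : Rws l R ⊆ Set.range (rpar l R) := by
  rintro r (⟨ε, t, j, hε, rfl⟩ | ⟨ε, a, b, c, hε, rfl⟩)
  · rcases hε with rfl | rfl
    · exact ⟨Sum.inl (true, t, j), rfl⟩
    · exact ⟨Sum.inl (false, t, j), rfl⟩
  · rcases hε with rfl | rfl
    · exact ⟨Sum.inr (true, a, b, c), rfl⟩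
    · exact ⟨Sum.inr (false, a, b, c), rfl⟩

theorem card_Rws : Nat.card (Set.range (rpar l R)) ≤ 4 * l ^ 3 := by
  have h := Nat.card_le_card_of_surjective (Set.rangeFactorization (rpar l R))
    Set.rangeFactorization_surjective
  refine h.trans ?_
  rw [Nat.card_sum, Nat.card_prod, Nat.card_prod, Nat.card_prod, Nat.card_prod, Nat.card_prod,
    Nat.card_zmod, Nat.card_eq_fintype_card, Fintype.card_bool]
  have hb := big l R
  have h1 : l ^ 2 ≤ l ^ 3 := Nat.pow_le_pow_right (by omega) (by norm_num)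
  calc 2 * (l * l) + 2 * (l * (l * l)) = 2 * l ^ 2 + 2 * l ^ 3 := by ring
    _ ≤ 4 * l ^ 3 := by omega

theorem shift_ev (g : Fn l R ≃ₗ[R] Fn l R) (f : Fn l R) (x : ZMod l) :
    g f x = (g * (g⁻¹ * hE 0 1 0 * g) ^ x.val : Fn l R ≃ₗ[R] Fn l R) f 0 := by
  have h1 : g * (g⁻¹ * hE 0 1 0 * g) ^ x.val = hE 0 x 0 * g := by
    have h2 := conj_pow' g (hE 0 1 0) x.val
    rw [h2, hE_powi, val_eq, mul_one]
    group
  rw [h1, mul_app, hE_app]
  simp [e_zero]

/-- an element is determined by its row and by the conjugate of the shift -/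
theorem row_inj {g g' : Fn l R ≃ₗ[R] Fn l R} (h1 : row g = row g')
    (h2 : g⁻¹ * hE 0 1 0 * g = g'⁻¹ * hE 0 1 0 * g') : g = g' := by
  refine op_ext fun f x => ?_
  rw [shift_ev, shift_ev g', ← h2, mul_app, mul_app, ev_eq, ev_eq g', h1]

theorem card_WH [Nontrivial R] [Finite R] : Nat.card (WH l R) ≤ 4 * l ^ 6 := by
  have hfin : Finite (Set.range (rpar l R)) := Set.finite_range _
  have hconj : ∀ g : WH l R, g⁻¹ * eH 0 1 0 * g ∈ EH l R := by
    intro g
    have := (inferInstance : (EH l R).Normal).conj_mem (eH 0 1 0) (mem_EH.2 ⟨_, _, _, rfl⟩) g⁻¹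
    rwa [inv_inv] at this
  have hinj : Function.Injective (fun g : WH l R =>
      ((⟨row (g : Fn l R ≃ₗ[R] Fn l R), Rws_sub (row_mem g.2)⟩, ⟨g⁻¹ * eH 0 1 0 * g, hconj g⟩) :
        Set.range (rpar l R) × EH l R)) := by
    intro g g' h
    simp only [Prod.mk.injEq, Subtype.mk.injEq] at h
    apply Subtype.ext
    refine row_inj h.1 ?_
    exact congrArg Subtype.val h.2
  have h := Nat.card_le_card_of_injective _ hinj
  rw [Nat.card_prod, card_EH] at h
  refine h.trans ?_
  calc Nat.card (Set.range (rpar l R)) * l ^ 3 ≤ 4 * l ^ 3 * l ^ 3 :=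
        Nat.mul_le_mul_right _ card_Rws
    _ = 4 * l ^ 6 := by ring

end Pool.Agent.N729.EX
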