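import Pool.Agent.N729.EX.Rows
import Pool.Agent.N729.EX.Aff

set_option autoImplicit false
set_option linter.unusedSectionVars false

/-!
# Expanders: subgroups of the group and their fixed points
-/

namespace Pool.Agent.N729.EX

open Finset Subgroup

variable {l : ℕ} {R : Type} [CommRing R] [Fact l.Prime] [Good l R]

theorem smul_app (g : WH l R) (f : Fn l R) : g • f = (g : Fn l R ≃ₗ[R] Fn l R) f := rfl

/-! ### Fixed points -/

theorem fix_center {t : ZMod l} (ht : t ≠ 0) {f : Fn l R} (h : (eH t 0 0 : WH l R) • f = f) :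
    f = 0 := by
  funext x
  have h1 := congrFun h x
  rw [smul_app] at h1
  change (hE t 0 0 : Fn l R ≃ₗ[R] Fn l R) f x = f x at h1
  rw [hE_app, zero_mul, add_zero, add_zero] at h1
  have h2 : ((e t : R) - 1) * f x = 0 := by rw [sub_mul, one_mul, h1, sub_self]
  exact (isUnit_sub ht).mul_right_eq_zero.1 h2

theorem zero_of_shift {φ : ZMod l → ZMod l} {i : ZMod l} (hi : i ≠ 0) {f : Fn l R}
    (h : ∀ x, e (φ x) * f (x + i) = f x) (h0 : f 0 = 0) : f = 0 := by
  have key : ∀ n : ℕ, f ((n : ZMod l) * i) = 0 := by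
    intro n
    induction n with
    | zero => rw [Nat.cast_zero, zero_mul, h0]
    | succ n ih =>
      have h1 := h ((n : ZMod l) * i)
      rw [ih] at h1
      have e1 : ((n + 1 : ℕ) : ZMod l) * i = (n : ZMod l) * i + i := by push_cast; ring
      rw [e1]
      calc f ((n : ZMod l) * i + i) =
            (e (-(φ ((n : ZMod l) * i))) * e (φ ((n : ZMod l) * i))) * f ((n : ZMod l) * i + i) := by
            rw [e_neg_mul, one_mul]
        _ = e (-(φ ((n : ZMod l) * i))) * 0 := by rw [mul_assoc, h1]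
        _ = 0 := mul_zero _
  funext x
  have h2 := key (x / i).val
  rw [val_eq, div_mul_cancel₀ _ hi] at h2
  exact h2

theorem zero_of_mul {φ : ZMod l → ZMod l} {f : Fn l R} (h : ∀ x, e (φ x) * f x = f x) {x : ZMod l}
    (hx : φ x ≠ 0) : f x = 0 := by
  have h2 : ((e (φ x) : R) - 1) * f x = 0 := by rw [sub_mul, one_mul, h, sub_self]
  exact (isUnit_sub hx).mul_right_eq_zero.1 h2

/-- counting fixed points by evaluation -/
theorem card_fix_le [Finite R] (g : WH l R) (Y : Type) [AddCommGroup Y] [Finite Y]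
    (ev : Fn l R →+ Y) (h : ∀ f : Fn l R, g • f = f → ev f = 0 → f = 0) :
    Nat.card {f : Fn l R // g • f = f} ≤ Nat.card Y := by
  refine Nat.card_le_card_of_injective (fun f : {f : Fn l R // g • f = f} => ev f.1) ?_
  intro a b hab
  simp only at hab
  have h1 : g • (a.1 - b.1) = a.1 - b.1 := by rw [smul_sub, a.2, b.2]
  have h2 := h _ h1 (by rw [map_sub, hab, sub_self])
  exact Subtype.ext (sub_eq_zero.1 h2)

theorem card_fix_hE [Finite R] (t : ZMod l) {i j : ZMod l} (hij : ¬(i = 0 ∧ j = 0)) :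
    Nat.card {f : Fn l R // (eH t i j : WH l R) • f = f} ≤ Nat.card R := by
  by_cases hi : i = 0
  · subst hi
    have hj : j ≠ 0 := fun hj => hij ⟨rfl, hj⟩
    refine card_fix_le _ R (Pi.evalAddMonoidHom (fun _ => R) (-t / j)) fun f hf h0 => ?_
    have h1 : ∀ x, e (t + j * x) * f x = f x := by
      intro x
      have h2 := congrFun hf x
      rw [smul_app] at h2
      change (hE t 0 j : Fn l R ≃ₗ[R] Fn l R) f x = f x at h2
      rwa [hE_app, add_zero] at h2
    funext x
    by_cases hx : t + j * x = 0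
    · have : x = -t / j := by
        rw [eq_div_iff hj]; linear_combination hx
      rw [this]
      exact h0
    · exact zero_of_mul (φ := fun x => t + j * x) h1 hx
  · refine card_fix_le _ R (Pi.evalAddMonoidHom (fun _ => R) 0) fun f hf h0 => ?_
    refine zero_of_shift (φ := fun x => t + j * x) hi (fun x => ?_) h0
    have h2 := congrFun hf x
    rw [smul_app] at h2
    exact h2

theorem card_fix_qu [Finite R] (t i j : ZMod l) :
    Nat.card {f : Fn l R // (quH 1 * eH t i j : WH l R) • f = f} ≤ Nat.card R ^ 2 := by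
  have hact : ∀ f : Fn l R, (quH 1 * eH t i j : WH l R) • f = f →
      ∀ x, e (x ^ 2 + (t + j * x)) * f (x + i) = f x := by
    intro f hf x
    have h2 := congrFun hf x
    rw [smul_app] at h2
    change Qu 1 (hE t i j f) x = f x at h2
    rw [Qu, Dg_app, hE_app, ← mul_assoc, ← e_add, one_mul] at h2
    exact h2
  have hcard : Nat.card (R × R) = Nat.card R ^ 2 := by rw [Nat.card_prod, sq]
  by_cases hi : i = 0
  · subst hi
    by_cases hr : ∃ x₁ : ZMod l, x₁ ^ 2 + (t + j * x₁) = 0
    · obtain ⟨x₁, hx₁⟩ := hr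
      rw [← hcard]
      refine card_fix_le _ (R × R) ((Pi.evalAddMonoidHom (fun _ => R) x₁).prod
        (Pi.evalAddMonoidHom (fun _ => R) (-j - x₁))) fun f hf h0 => ?_
      have h1 : f x₁ = 0 := congrArg Prod.fst h0
      have h2 : f (-j - x₁) = 0 := congrArg Prod.snd h0
      funext x
      by_cases hx : x ^ 2 + (t + j * x) = 0
      · have h3 : (x - x₁) * (x - (-j - x₁)) = 0 := by linear_combination hx - hx₁
        rcases mul_eq_zero.1 h3 with h4 | h4
        · rw [sub_eq_zero.1 h4]; exact h1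
        · rw [sub_eq_zero.1 h4]; exact h2
      · refine zero_of_mul (φ := fun x => x ^ 2 + (t + j * x)) (fun y => ?_) hx
        have := hact f hf y
        rwa [add_zero] at this
    · have h1 : Nat.card {f : Fn l R // (quH 1 * eH t 0 j : WH l R) • f = f} ≤ Nat.card PUnit := by
        refine card_fix_le _ PUnit 0 fun f hf _ => ?_
        funext x
        refine zero_of_mul (φ := fun x => x ^ 2 + (t + j * x)) (fun y => ?_)
          (fun hx => hr ⟨x, hx⟩)
        have := hact f hf y
        rwa [add_zero] at this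
      refine h1.trans ?_
      have : 0 < Nat.card R := Nat.card_pos
      rw [Nat.card_unique]
      exact Nat.one_le_pow _ _ this
  · have h1 : Nat.card {f : Fn l R // (quH 1 * eH t i j : WH l R) • f = f} ≤ Nat.card R := by
      refine card_fix_le _ R (Pi.evalAddMonoidHom (fun _ => R) 0) fun f hf h0 => ?_
      exact zero_of_shift (φ := fun x => x ^ 2 + (t + j * x)) hi (hact f hf) h0
    refine h1.trans ?_
    have : 0 < Nat.card R := Nat.card_pos
    nlinarith

/-! ### Intersections with the Heisenberg group -/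

/-- no nontrivial central element of the Heisenberg group -/
def NC (K : Subgroup (WH l R)) : Prop := ∀ t : ZMod l, (eH t 0 0 : WH l R) ∈ K → t = 0

theorem NC.pair [Nontrivial R] {K : Subgroup (WH l R)} (hK : NC K) {t i j t' i' j' : ZMod l}
    (h : (eH t i j : WH l R) ∈ K) (h' : (eH t' i' j' : WH l R) ∈ K) : i * j' = i' * j := by
  have h1 := K.mul_mem (K.mul_mem (K.mul_mem h h') (K.inv_mem h)) (K.inv_mem h')
  rw [eH_comm] at h1
  exact sub_eq_zero.1 (hK _ h1)

theorem NC.inj {K : Subgroup (WH l R)} (hK : NC K) {t t' i j : ZMod l}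
    (h : (eH t i j : WH l R) ∈ K) (h' : (eH t' i j : WH l R) ∈ K) : t = t' := by
  have h1 := K.mul_mem h (K.inv_mem h')
  rw [eH_inv, eH_mul, add_neg_cancel, add_neg_cancel] at h1
  have h2 := hK _ h1
  linear_combination h2

theorem NC.card_le [Nontrivial R] {K : Subgroup (WH l R)} (hK : NC K) :
    Nat.card (K ⊓ EH l R : Subgroup (WH l R)) ≤ l := by
  have hcoord : ∀ g : (K ⊓ EH l R : Subgroup (WH l R)), ∃ p : ZMod l × ZMod l × ZMod l,
      (g : WH l R) = eH p.1 p.2.1 p.2.2 := by
    intro g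
    obtain ⟨t, i, j, h⟩ := mem_EH.1 g.2.2
    exact ⟨(t, i, j), h⟩
  choose p hp using hcoord
  have hmem : ∀ g, (eH (p g).1 (p g).2.1 (p g).2.2 : WH l R) ∈ K := by
    intro g
    rw [← hp g]
    exact g.2.1
  have hl : l = Nat.card (ZMod l) := (Nat.card_zmod l).symm
  have hfin : Finite (ZMod l) := inferInstance
  -- injectivity of the pair of the last two coordinates
  have hinj2 : ∀ g g', (p g).2.1 = (p g').2.1 → (p g).2.2 = (p g').2.2 → g = g' := by
    intro g g' h1 h2
    apply Subtype.ext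
    have hg := hmem g
    have hg' := hmem g'
    rw [← h1, ← h2] at hg'
    rw [hp g, hp g', ← h1, ← h2, hK.inj hg hg']
  have goal : Nat.card (K ⊓ EH l R : Subgroup (WH l R)) ≤ Nat.card (ZMod l) := by
    by_cases h0 : ∃ g₀, (p g₀).2.1 ≠ 0
    · obtain ⟨g₀, h0⟩ := h0
      refine Nat.card_le_card_of_injective (fun g => (p g).2.1) ?_
      intro g g' h
      simp only at h
      refine hinj2 g g' h ?_
      have h1 := hK.pair (hmem g₀) (hmem g)
      have h2 := hK.pair (hmem g₀) (hmem g')
      rw [← h, ← h1] at h2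
      exact (mul_left_cancel₀ h0 h2).symm
    · push Not at h0
      refine Nat.card_le_card_of_injective (fun g => (p g).2.2) ?_
      intro g g' h
      exact hinj2 g g' (by rw [h0 g, h0 g']) h
  rwa [← hl] at goal

theorem NC.trivial [Nontrivial R] {K : Subgroup (WH l R)} (hK : NC K) (htop : K ⊔ EH l R = ⊤) :
    K ⊓ EH l R = ⊥ := by
  rw [eq_bot_iff]
  rintro g ⟨hgK, hgE⟩
  obtain ⟨t, i, j, rfl⟩ := mem_EH.1 hgE
  have h2 := two_ne l R
  -- conjugation by elements of the group
  have key : ∀ q : WH l R, ∃ t', ∃ k ∈ K, k * eH t i j * k⁻¹ = q * eH t' i j * q⁻¹ := by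
    intro q
    have hq : q ∈ K ⊔ EH l R := by rw [htop]; exact mem_top _
    rw [mem_sup_of_normal_right] at hq
    obtain ⟨k, hk, z, hz, rfl⟩ := hq
    obtain ⟨t'', i'', j'', rfl⟩ := mem_EH.1 hz
    refine ⟨t + j'' * i - i'' * j, k, hk, ?_⟩
    have e1 : (eH t'' i'' j'' * eH (t + j'' * i - i'' * j) i j * (eH t'' i'' j'')⁻¹ : WH l R) =
        eH t i j := by
      rw [eH_inv, eH_mul, eH_mul]
      congr 1 <;> ring
    rw [mul_inv_rev]
    calc k * eH t i j * k⁻¹ = k * (eH t'' i'' j'' * eH (t + j'' * i - i'' * j) i j *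
          (eH t'' i'' j'')⁻¹) * k⁻¹ := by rw [e1]
      _ = _ := by simp only [mul_assoc]
  have hi : i = 0 := by
    obtain ⟨t', k, hk, h⟩ := key (quH 1)
    rw [quH_eH] at h
    have hm := K.mul_mem (K.mul_mem hk hgK) (K.inv_mem hk)
    rw [h] at hm
    have h3 := hK.pair hgK hm
    have h4 : 2 * (i * i) = 0 := by linear_combination -h3
    rcases mul_eq_zero.1 h4 with h5 | h5
    · exact absurd h5 h2
    · exact mul_self_eq_zero.1 h5
  have hj : j = 0 := by
    obtain ⟨t', k, hk, h⟩ := key (qpH 1)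
    rw [qpH_eH] at h
    have hm := K.mul_mem (K.mul_mem hk hgK) (K.inv_mem hk)
    rw [h] at hm
    have h3 := hK.pair hgK hm
    have h4 : 2 * (j * j) = 0 := by linear_combination -h3
    rcases mul_eq_zero.1 h4 with h5 | h5
    · exact absurd h5 h2
    · exact mul_self_eq_zero.1 h5
  subst hi hj
  have ht := hK t hgK
  subst ht
  rw [mem_bot]
  exact eH_one

theorem NC.relIndex_ge [Nontrivial R] [Finite R] {K : Subgroup (WH l R)} (hK : NC K) :
    l ^ 2 ≤ K.relIndex (EH l R) := by
  have h1 := card_relIndex K (EH l R)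
  rw [card_EH] at h1
  have h2 := hK.card_le
  have hl : 0 < l := (Fact.out : l.Prime).pos
  by_contra h
  push Not at h
  have : Nat.card (K ⊓ EH l R : Subgroup (WH l R)) * K.relIndex (EH l R) ≤
      l * K.relIndex (EH l R) := Nat.mul_le_mul_right _ h2
  have : l * K.relIndex (EH l R) < l * l ^ 2 := Nat.mul_lt_mul_of_pos_left h hl
  nlinarith

theorem relIndex_of_bot [Nontrivial R] [Finite R] {K : Subgroup (WH l R)} (hK : K ⊓ EH l R = ⊥) :
    K.relIndex (EH l R) = l ^ 3 := by
  have h1 := card_relIndex K (EH l R)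
  rw [card_EH, hK, card_bot, one_mul] at h1
  exact h1

theorem index_ge_sq [Nontrivial R] [Finite R] {K : Subgroup (WH l R)} (hK : NC K) :
    l ^ 2 ≤ K.index := by
  have h1 := index_mul_le K (EH l R)
  have h2 : 0 < (K ⊔ EH l R).index := Nat.pos_of_ne_zero index_ne_zero_of_finite
  have h3 := hK.relIndex_ge
  nlinarith

/-- every subgroup contains an element with few fixed points -/
theorem exists_fix [Nontrivial R] [Finite R] (hR : Nat.card R ≤ 2 ^ l ^ 3) (K : Subgroup (WH l R)) :
    ∃ k ∈ K, Nat.card {f : Fn l R // k • f = f} ≤ 4 ^ K.index := by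
  have hind : 0 < K.index := Nat.pos_of_ne_zero index_ne_zero_of_finite
  have hle := index_mul_le K (EH l R)
  have hl : 0 < l := (Fact.out : l.Prime).pos
  have h24 : ∀ n : ℕ, 2 ^ n ≤ 4 ^ n := fun n => Nat.pow_le_pow_left (by norm_num) n
  by_cases hK : NC K
  · by_cases htop : K ⊔ EH l R = ⊤
    · have hbot := hK.trivial htop
      have hri := relIndex_of_bot hbot
      rw [hri, htop, index_top, mul_one] at hle
      have hq : (quH 1 : WH l R) ∈ K ⊔ EH l R := by rw [htop]; exact mem_top _
      rw [mem_sup_of_normal_right] at hq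
      obtain ⟨k, hk, z, hz, hkz⟩ := hq
      obtain ⟨t, i, j, hz'⟩ := mem_EH.1 ((EH l R).inv_mem hz)
      have hk' : k = quH 1 * eH t i j := by rw [← hkz, ← hz', mul_inv_cancel_right]
      refine ⟨k, hk, ?_⟩
      rw [hk']
      refine (card_fix_qu t i j).trans ?_
      calc Nat.card R ^ 2 ≤ (2 ^ l ^ 3) ^ 2 := Nat.pow_le_pow_left hR 2
        _ = 4 ^ l ^ 3 := by rw [← pow_mul, mul_comm, pow_mul]; norm_num
        _ ≤ 4 ^ K.index := Nat.pow_le_pow_right (by norm_num) hle
    · have hge := WH_index htop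
      by_cases hbot : K ⊓ EH l R = ⊥
      · refine ⟨1, K.one_mem, ?_⟩
        have hri := relIndex_of_bot hbot
        rw [hri] at hle
        have h1 : l ^ 4 ≤ K.index := by
          calc l ^ 4 = l ^ 3 * l := by ring
            _ ≤ l ^ 3 * (K ⊔ EH l R).index := Nat.mul_le_mul_left _ hge
            _ ≤ K.index := hle
        have h2 : Nat.card {f : Fn l R // (1 : WH l R) • f = f} ≤ Nat.card (Fn l R) :=
          Nat.card_le_card_of_injective Subtype.val Subtype.val_injective
        have h3 : Nat.card (Fn l R) = Nat.card R ^ l := by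
          rw [Nat.card_fun, Nat.card_zmod]
        refine h2.trans ?_
        rw [h3]
        calc Nat.card R ^ l ≤ (2 ^ l ^ 3) ^ l := Nat.pow_le_pow_left hR l
          _ = 2 ^ l ^ 4 := by rw [← pow_mul]; congr 1
          _ ≤ 4 ^ l ^ 4 := h24 _
          _ ≤ 4 ^ K.index := Nat.pow_le_pow_right (by norm_num) h1
      · obtain ⟨a, ha, ha1⟩ := (K ⊓ EH l R).bot_or_exists_ne_one.resolve_left hbot
        obtain ⟨t, i, j, rfl⟩ := mem_EH.1 ha.2
        have hij : ¬(i = 0 ∧ j = 0) := by
          rintro ⟨rfl, rfl⟩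
          have := hK t ha.1
          subst this
          exact ha1 eH_one
        refine ⟨_, ha.1, (card_fix_hE t hij).trans ?_⟩
        have h3 := hK.relIndex_ge
        have h1 : l ^ 3 ≤ K.index := by
          calc l ^ 3 = l ^ 2 * l := by ring
            _ ≤ K.relIndex (EH l R) * (K ⊔ EH l R).index := Nat.mul_le_mul h3 hge
            _ ≤ K.index := hle
        calc Nat.card R ≤ 2 ^ l ^ 3 := hR
          _ ≤ 4 ^ l ^ 3 := h24 _
          _ ≤ 4 ^ K.index := Nat.pow_le_pow_right (by norm_num) h1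
  · rw [NC] at hK
    push Not at hK
    obtain ⟨t, ht, ht0⟩ := hK
    refine ⟨_, ht, ?_⟩
    have h1 : Nat.card {f : Fn l R // (eH t 0 0 : WH l R) • f = f} ≤ Nat.card PUnit :=
      card_fix_le _ PUnit 0 fun f hf _ => fix_center ht0 hf
    rw [(Nat.card_unique : Nat.card PUnit.{1} = 1)] at h1
    exact h1.trans (Nat.one_le_pow _ _ (by norm_num))

end Pool.Agent.N729.EX
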